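import Pool.Agent.Helper31_Leo.Expand

/-!
# Coefficients of logarithms of units in the family `f₀ - p v Q`
-/

set_option autoImplicit false

open Polynomial

namespace Pool.Agent.Helper31_Leo

variable {p : ℕ} [hp : Fact p.Prime]

/-- The polynomial `f₀ - p v Q` over `ℤ_[p][v]`. -/
noncomputable def FF (f₀ Q : ℤ_[p][X]) : ℤ_[p][X][X] :=
  f₀.map C - C (C (p : ℤ_[p]) * X) * Q.map C

/-- The truncated logarithm of `1 + y`. -/
noncomputable def tlZ (y : ℤ_[p][X]) : ℤ_[p][X] :=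
  ∑ m ∈ Finset.range (p - 1), C (lc p m) * y ^ (m + 1)

theorem FF_monic {f₀ Q : ℤ_[p][X]} (hf : f₀.Monic) (hQ : Q.natDegree < f₀.natDegree) :
    (FF f₀ Q).Monic := by
  refine (hf.map C).sub_of_left ?_
  refine lt_of_le_of_lt (degree_mul_le _ _) ?_
  refine lt_of_le_of_lt (add_le_add_left degree_C_le _) ?_
  rw [zero_add, hf.degree_map]
  exact lt_of_le_of_lt degree_map_le (degree_lt_degree hQ)

theorem FF_degree {f₀ Q : ℤ_[p][X]} (hf : f₀.Monic) (hQ : Q.natDegree < f₀.natDegree) :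
    (FF f₀ Q).degree = f₀.degree := by
  rw [FF, degree_sub_eq_left_of_degree_lt, hf.degree_map]
  refine lt_of_le_of_lt (degree_mul_le _ _) ?_
  refine lt_of_le_of_lt (add_le_add_left degree_C_le _) ?_
  rw [zero_add, hf.degree_map]
  exact lt_of_le_of_lt degree_map_le (degree_lt_degree hQ)

/-- Remainders modulo `f₀ - p v Q`. -/
theorem modByMonic_FF {f₀ Q : ℤ_[p][X]} (hf : f₀.Monic) (hQ : Q.natDegree < f₀.natDegree)
    (lam : ℤ_[p][X]) : ∃ e : ℤ_[p][X][X],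
      (lam.map C) %ₘ (FF f₀ Q) = (lam %ₘ f₀).map C +
        C (C (p : ℤ_[p]) * X) * ((Q * (lam /ₘ f₀)) %ₘ f₀).map C + C (C (p : ℤ_[p]) ^ 2) * e := by
  set F := FF f₀ Q with hF
  have hFm : F.Monic := FF_monic hf hQ
  set q₀ := lam /ₘ f₀ with hq₀
  set r₀ := lam %ₘ f₀ with hr₀
  set q₁ := (Q * q₀) /ₘ f₀ with hq₁
  set r₁ := (Q * q₀) %ₘ f₀ with hr₁
  have h0 : r₀ + f₀ * q₀ = lam := modByMonic_add_div _ _
  have h1 : r₁ + f₀ * q₁ = Q * q₀ := modByMonic_add_div _ _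
  have h0' := congrArg (Polynomial.map (C : ℤ_[p] →+* ℤ_[p][X])) h0
  have h1' := congrArg (Polynomial.map (C : ℤ_[p] →+* ℤ_[p][X])) h1
  rw [Polynomial.map_add, Polynomial.map_mul] at h0'
  rw [Polynomial.map_add, Polynomial.map_mul, Polynomial.map_mul] at h1'
  have key : lam.map C = r₀.map C + C (C (p : ℤ_[p]) * X) * r₁.map C +
      C (C (p : ℤ_[p]) ^ 2) * (C (X ^ 2) * (Q * q₁).map C) +
      F * (q₀.map C + C (C (p : ℤ_[p]) * X) * q₁.map C) := by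
    rw [← h0', hF, FF, Polynomial.map_mul, C_pow, C_pow, C_mul]
    linear_combination (-(C (C (p : ℤ_[p])) * C X) : ℤ_[p][X][X]) * h1'
  refine ⟨(C (X ^ 2) * (Q * q₁).map C) %ₘ F, ?_⟩
  have h2 : ∀ a : ℤ_[p][X][X], (a + F * (q₀.map C + C (C (p : ℤ_[p]) * X) * q₁.map C)) %ₘ F =
      a %ₘ F := by
    intro a
    rw [add_modByMonic, (modByMonic_eq_zero_iff_dvd hFm).2 (dvd_mul_right _ _), add_zero]
  rw [key, h2, add_modByMonic]
  have h3 : (C (C (p : ℤ_[p]) ^ 2) * (C (X ^ 2) * (Q * q₁).map C)) %ₘ F =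
      C (C (p : ℤ_[p]) ^ 2) * ((C (X ^ 2) * (Q * q₁).map C) %ₘ F) := by
    rw [← smul_eq_C_mul, smul_modByMonic, smul_eq_C_mul]
  rw [h3]
  congr 1
  rw [modByMonic_eq_self_iff hFm, FF_degree hf hQ]
  refine lt_of_le_of_lt (degree_add_le _ _) (max_lt ?_ ?_)
  · exact lt_of_le_of_lt degree_map_le (degree_modByMonic_lt _ hf)
  · refine lt_of_le_of_lt (degree_mul_le _ _) ?_
    refine lt_of_le_of_lt (add_le_add_left degree_C_le _) ?_
    rw [zero_add]
    exact lt_of_le_of_lt degree_map_le (degree_modByMonic_lt _ hf)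

/-- The logarithm of the unit `g ^ N` in the family. -/
theorem exists_log_poly {f₀ Q : ℤ_[p][X]} (hf : f₀.Monic) (hQ : Q.natDegree < f₀.natDegree)
    (hpn : 3 * f₀.natDegree ≤ p) (g : ℤ_[p][X]) (N : ℕ)
    (hy : ∃ a b, (g ^ N - 1) ^ f₀.natDegree = C (p : ℤ_[p]) * a + f₀ * b)
    (s : ℕ) (hs : 2 ≤ s) : ∃ R e : ℤ_[p][X][X], R.degree < f₀.degree ∧
      R = (tlZ (g ^ N - 1) %ₘ f₀).map C +
        C (C (p : ℤ_[p]) * X) * ((Q * (tlZ (g ^ N - 1) /ₘ f₀)) %ₘ f₀).map C +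
        C (C (p : ℤ_[p]) ^ 2) * e ∧
      ∀ {F : Type} [CommRing F] (φ : ℤ_[p] →+* F) (v : ℤ_[p]) (θ : F),
        f₀.eval₂ φ θ = φ (p * v) * Q.eval₂ φ θ →
        (g.eval₂ φ θ) ^ (N * p ^ s) - 1 = (p : F) ^ s *
          R.eval₂ (φ.comp (evalRingHom v)) θ := by
  set F₀ := FF f₀ Q with hF₀
  have hFm : F₀.Monic := FF_monic hf hQ
  obtain ⟨a, b, hab⟩ := hy
  set y : AdjoinRoot F₀ := AdjoinRoot.mk F₀ ((g ^ N - 1).map C) with hydef
  have hroot : AdjoinRoot.mk F₀ (f₀.map C) =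
      AdjoinRoot.mk F₀ (C (C (p : ℤ_[p]) * X) * Q.map C) := by
    rw [AdjoinRoot.mk_eq_mk]
    exact dvd_of_eq rfl
  have halg : ∀ r : ℤ_[p], algebraMap ℤ_[p] (AdjoinRoot F₀) r = AdjoinRoot.mk F₀ (C (C r)) := by
    intro r; rfl
  have hy' : y ^ f₀.natDegree = (p : AdjoinRoot F₀) *
      AdjoinRoot.mk F₀ (a.map C + C X * Q.map C * b.map C) := by
    rw [hydef, ← map_pow, ← Polynomial.map_pow, hab, Polynomial.map_add, Polynomial.map_mul,
      Polynomial.map_mul, map_add, map_mul (AdjoinRoot.mk F₀) (f₀.map C), hroot, ← map_mul,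
      ← map_add]
    have h1 : (p : AdjoinRoot F₀) = AdjoinRoot.mk F₀ (C (C (p : ℤ_[p]))) := by
      simp
    rw [h1, ← map_mul]
    congr 1
    rw [Polynomial.map_C, C_mul]
    ring
  obtain ⟨E, hE⟩ := expand (p := p) hpn y _ hy' s hs
  obtain ⟨e₀, he₀⟩ := modByMonic_FF hf hQ (tlZ (g ^ N - 1))
  obtain ⟨E', rfl⟩ := AdjoinRoot.mk_surjective (g := F₀) E
  set R : ℤ_[p][X][X] := ((tlZ (g ^ N - 1)).map C) %ₘ F₀ + C (C (p : ℤ_[p]) ^ 2) * (E' %ₘ F₀)
    with hR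
  refine ⟨R, e₀ + E' %ₘ F₀, ?_, ?_, ?_⟩
  · rw [← FF_degree hf hQ]
    refine lt_of_le_of_lt (degree_add_le _ _) (max_lt (degree_modByMonic_lt _ hFm) ?_)
    refine lt_of_le_of_lt (degree_mul_le _ _) ?_
    refine lt_of_le_of_lt (add_le_add_left degree_C_le _) ?_
    rw [zero_add]
    exact degree_modByMonic_lt _ hFm
  · rw [hR, he₀]; ring
  · intro F _ φ v θ hθ
    have hlift : F₀.eval₂ (φ.comp (evalRingHom v)) θ = 0 := by
      have h1 : ∀ q : ℤ_[p][X], (q.map C).eval₂ (φ.comp (evalRingHom v)) θ = q.eval₂ φ θ := by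
        intro q
        rw [eval₂_map]
        congr 1
        ext x
        simp
      rw [hF₀, FF, eval₂_sub, eval₂_mul, h1, h1, eval₂_C, hθ]
      simp
    have h1 : ∀ q : ℤ_[p][X], (q.map C).eval₂ (φ.comp (evalRingHom v)) θ = q.eval₂ φ θ := by
      intro q
      rw [eval₂_map]
      congr 1
      ext x
      simp
    set ev : AdjoinRoot F₀ →+* F := AdjoinRoot.lift (φ.comp (evalRingHom v)) θ hlift with hev
    have hevmk : ∀ q : ℤ_[p][X][X], ev (AdjoinRoot.mk F₀ q) =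
        q.eval₂ (φ.comp (evalRingHom v)) θ := fun q => AdjoinRoot.lift_mk _ _
    have h2 : AdjoinRoot.mk F₀ R = ∑ m ∈ Finset.range (p - 1),
        algebraMap ℤ_[p] (AdjoinRoot F₀) (lc p m) * y ^ (m + 1) +
        (p : AdjoinRoot F₀) ^ 2 * AdjoinRoot.mk F₀ E' := by
      have h3 : ∀ q : ℤ_[p][X][X], AdjoinRoot.mk F₀ (q %ₘ F₀) = AdjoinRoot.mk F₀ q := by
        intro q
        rw [AdjoinRoot.mk_eq_mk]
        have := modByMonic_add_div q F₀
        exact ⟨-(q /ₘ F₀), by linear_combination this⟩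
      rw [hR, map_add, map_mul, h3, h3]
      congr 1
      · rw [tlZ, Polynomial.map_sum, map_sum]
        refine Finset.sum_congr rfl fun m _ => ?_
        rw [Polynomial.map_mul, Polynomial.map_pow, Polynomial.map_C, map_mul, map_pow, halg]
      · simp
    rw [← h2] at hE
    have h3 := congrArg ev hE
    rw [map_sub, map_one, map_pow, map_add, map_one, map_mul, map_pow, map_natCast] at h3
    have h4 : ev y = (g.eval₂ φ θ) ^ N - 1 := by
      rw [hydef, hevmk, h1, eval₂_sub, eval₂_one, eval₂_pow]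
    have h5 : ev (AdjoinRoot.mk F₀ R) = R.eval₂ (φ.comp (evalRingHom v)) θ := hevmk R
    rw [h4, h5, add_sub_cancel, ← pow_mul] at h3
    exact h3

end Pool.Agent.Helper31_Leo
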