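import Pool.Agent.Helper31_Leo.PencilInt

/-!
# Polynomials over `ℤ_[p]` whose reduction has degree `d` are not small at `d + 1` points
-/

set_option autoImplicit false

open Polynomial

namespace Pool.Agent.Helper31_Leo

variable {p : ℕ} [hp : Fact p.Prime]

theorem norm_eq_one_of_toZMod {x : ℤ_[p]} (h : PadicInt.toZMod x ≠ 0) : ‖x‖ = 1 :=
  PadicInt.isUnit_iff.1 (isUnit_of_toZMod h)

theorem zeros_bound (d : ℕ) : ∀ v : Fin (d + 1) → ℤ_[p], Function.Injective v →
    ∃ δ : ℝ, 0 < δ ∧ ∀ φ : ℤ_[p][X], (φ.map PadicInt.toZMod).natDegree = d →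
      φ.map PadicInt.toZMod ≠ 0 → ∃ k, δ ≤ ‖φ.eval (v k)‖ := by
  induction d with
  | zero =>
    intro v _
    refine ⟨1, one_pos, fun φ h1 h2 => ⟨0, ?_⟩⟩
    rw [norm_eq_one_of_toZMod]
    rw [← Polynomial.eval_map_apply, eq_C_of_natDegree_eq_zero h1, eval_C]
    rw [eq_C_of_natDegree_eq_zero h1] at h2
    exact fun h => h2 (by rw [h, C_0])
  | succ d ih =>
    intro v hv
    obtain ⟨δ, hδ, hφ⟩ := ih (fun i => v i.succ) fun i j h => Fin.succ_injective _ (hv h)
    obtain ⟨m, hm⟩ := Finite.exists_min fun i : Fin (d + 1) => ‖v i.succ - v 0‖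
    have hm0 : 0 < ‖v m.succ - v 0‖ := by
      rw [norm_pos_iff, sub_ne_zero]
      exact fun h => Fin.succ_ne_zero m (hv h)
    refine ⟨‖v m.succ - v 0‖ * δ, mul_pos hm0 hδ, fun φ h1 h2 => ?_⟩
    set ψ := φ /ₘ (X - C (v 0)) with hψ
    have h3 : φ = C (φ.eval (v 0)) + (X - C (v 0)) * ψ := by
      rw [hψ, ← modByMonic_X_sub_C_eq_C_eval, modByMonic_add_div]
    have h4 : φ.map PadicInt.toZMod - C (PadicInt.toZMod (φ.eval (v 0))) =
        (X - C (PadicInt.toZMod (v 0))) * ψ.map PadicInt.toZMod := by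
      conv_lhs => rw [h3]
      simp
    have h5 : (φ.map PadicInt.toZMod - C (PadicInt.toZMod (φ.eval (v 0)))).natDegree = d + 1 := by
      rw [natDegree_sub_C, h1]
    have h6 : ψ.map PadicInt.toZMod ≠ 0 := by
      intro h
      rw [h4, h, mul_zero, natDegree_zero] at h5
      omega
    have h7 : (ψ.map PadicInt.toZMod).natDegree = d := by
      rw [h4, natDegree_mul (X_sub_C_ne_zero _) h6, natDegree_X_sub_C] at h5
      omega
    obtain ⟨k, hk⟩ := hφ ψ h7 h6
    have h8 : φ.eval (v k.succ) - φ.eval (v 0) = (v k.succ - v 0) * ψ.eval (v k.succ) := by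
      have h9 := congrArg (eval (v k.succ)) h3
      rw [eval_add, eval_C, eval_mul, eval_sub, eval_X, eval_C] at h9
      rw [h9]; ring
    have h9 : ‖v m.succ - v 0‖ * δ ≤ ‖φ.eval (v k.succ) - φ.eval (v 0)‖ := by
      rw [h8, norm_mul]
      exact mul_le_mul (hm k) hk hδ.le (norm_nonneg _)
    have h10 := PadicInt.nonarchimedean (φ.eval (v k.succ)) (-(φ.eval (v 0)))
    rw [← sub_eq_add_neg, norm_neg] at h10
    rcases le_max_iff.1 (h9.trans h10) with h | h
    · exact ⟨k.succ, h⟩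
    · exact ⟨0, h⟩

end Pool.Agent.Helper31_Leo
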