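import Pool.Agent.Helper31_Leo.Link
import Pool.Agent.Helper31_Leo.Zeros
import Pool.Agent.Helper65_Leo.Cofinite

/-!
# Counting the exceptional parameters
-/

set_option autoImplicit false

open Polynomial Filter Topology NumberField Pool.Agent.Helper85_Leo Pool.Agent.Helper65_Leo

namespace Pool.Agent.Helper31_Leo

/-- Leopoldt's conjecture at `p` fails for a field generated by a root of `P - t Q`, of degree
`deg P` and unit rank at most `r`. -/
def Fails (P Q : ℤ[X]) (r p : ℕ) [Fact p.Prime] (t : ℤ) : Prop :=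
  ∃ (K : Type) (_ : Field K) (_ : NumberField K) (θ : K),
    aeval θ (P - C t * Q) = 0 ∧ IntermediateField.adjoin ℚ {θ} = ⊤ ∧
    Module.finrank ℚ K = P.natDegree ∧ Units.rank K ≤ r ∧ ¬ LeopoldtAt K p

/-- Conditions on the prime `p`. -/
structure GoodPrime (P : ℤ[X]) {ι : Type} (g : ι → ℤ[X]) (p : ℕ) : Prop where
  large : 3 * P.natDegree ≤ p
  der : ∀ i, derivative ((g i).map (Int.castRingHom (ZMod p))) ≠ 0
  cop : ∀ i l, i ≠ l → IsCoprime ((g i).map (Int.castRingHom (ZMod p)))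
    ((g l).map (Int.castRingHom (ZMod p)))

variable {p : ℕ} [hp : Fact p.Prime]

theorem map_toZMod (q : ℤ[X]) : (q.map (Int.castRingHom ℤ_[p])).map PadicInt.toZMod =
    q.map (Int.castRingHom (ZMod p)) := by
  rw [Polynomial.map_map]
  congr 1
  exact RingHom.ext_int _ _

open Classical in
/-- A residue class modulo a good prime contains at most `|ι|` exceptional parameters. -/
theorem class_bound {P Q : ℤ[X]} (hP : P.Monic) (hdeg : Q.natDegree < P.natDegree)
    (hcop : IsCoprime P Q) {ι : Type} [Fintype ι] (g : ι → ℤ[X]) (hgQ : ∀ i, g i ∣ Q)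
    (hsum : ∑ i, (g i).natDegree < P.natDegree) (hgood : GoodPrime P g p) (t₀ : ℤ)
    (S : Finset ℤ) (hS : ∀ t ∈ S, Fails P Q (Fintype.card ι) p t)
    (hS' : ∀ t ∈ S, ∃ v : ℤ, t = t₀ + p * v) : S.card ≤ Fintype.card ι := by
  set f₀ : ℤ_[p][X] := (P - C t₀ * Q).map (Int.castRingHom ℤ_[p]) with hf₀
  have hPm : (P - C t₀ * Q).Monic := monic_sub_mul hP hdeg t₀
  have hf : f₀.Monic := hPm.map _
  have hfdeg : f₀.natDegree = P.natDegree := by
    rw [hf₀, hPm.natDegree_map, natDegree_sub_mul hdeg]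
  have hfdeg' : f₀.degree = P.natDegree := by
    rw [degree_eq_natDegree hf.ne_zero, hfdeg]
  set QQ : ℤ_[p][X] := Q.map (Int.castRingHom ℤ_[p]) with hQQ
  have hQdeg : QQ.natDegree < f₀.natDegree := by
    rw [hfdeg]; exact natDegree_map_le.trans_lt hdeg
  set n := P.natDegree with hn
  -- coprimality modulo `p`
  have hcop0 : IsCoprime (P - C t₀ * Q) Q := by
    obtain ⟨a, b, hab⟩ := hcop
    exact ⟨a, b + a * C t₀, by linear_combination hab⟩
  have hcopf : IsCoprime (QQ.map PadicInt.toZMod) (f₀.map PadicInt.toZMod) := by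
    rw [hQQ, hf₀, map_toZMod, map_toZMod]
    have := hcop0.symm.map (mapRingHom (Int.castRingHom (ZMod p)))
    simpa only [coe_mapRingHom] using this
  have hcopg : ∀ i, IsCoprime ((g i).map (Int.castRingHom (ZMod p)))
      (f₀.map PadicInt.toZMod) := by
    intro i
    refine IsCoprime.of_isCoprime_of_dvd_left hcopf ?_
    rw [hQQ, map_toZMod]
    exact Polynomial.map_dvd _ (hgQ i)
  have hfmap : (f₀.map PadicInt.toZMod).Monic := hf.map _
  have hfmapdeg : (f₀.map PadicInt.toZMod).natDegree = n := by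
    rw [hf.natDegree_map, hfdeg]
  have hnp := hgood.large
  rw [← hn] at hnp
  have hn1 : n ≤ p - 1 := by
    rcases Nat.eq_zero_or_pos n with h | h <;> omega
  -- the truncated logarithms
  set N := NN p n with hN
  let G : ι → ℤ_[p][X] := fun i => (g i).map (Int.castRingHom ℤ_[p])
  have hG : ∀ i, (G i).map PadicInt.toZMod = (g i).map (Int.castRingHom (ZMod p)) :=
    fun i => map_toZMod (g i)
  have hy : ∀ i, ∃ a b, (G i ^ N - 1) ^ n = C (p : ℤ_[p]) * a + f₀ * b := by
    intro i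
    refine exists_lift_dvd ?_
    rw [Polynomial.map_pow, Polynomial.map_sub, Polynomial.map_pow, Polynomial.map_one, hG]
    exact dvd_pow_NN hfmap.ne_zero hfmapdeg.le hfmapdeg.le (hcopg i)
  let M₀ : Matrix (Fin n) ι ℤ_[p] := Matrix.of fun (j : Fin n) i =>
    (tlZ (G i ^ N - 1) %ₘ f₀).coeff j
  let M₁ : Matrix (Fin n) ι ℤ_[p] := Matrix.of fun (j : Fin n) i =>
    ((QQ * (tlZ (G i ^ N - 1) /ₘ f₀)) %ₘ f₀).coeff j
  obtain ⟨V, d, hd, hV⟩ := pencil_det M₀ M₁ fun α β h1 h2 => by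
    refine pencil_hyp_padic (Q := QQ) hf hfdeg hcopf G (N := N) (NN_ne_zero n) ?_ ?_ ?_ ?_ α β
      h1 h2
    · intro i
      rw [hG]
      exact dvd_pow_NN hfmap.ne_zero hfmapdeg.le (hfmapdeg.le.trans hn1) (hcopg i)
    · intro i; rw [hG]; exact hgood.der i
    · intro i l hil; rw [hG, hG]; exact hgood.cop i l hil
    · refine lt_of_le_of_lt (Finset.sum_le_sum fun i _ => ?_) hsum
      rw [hG]; exact natDegree_map_le
  have hR : ∀ (s : ℕ) (i : ι), 2 ≤ s → ∃ R e : ℤ_[p][X][X], R.degree < f₀.degree ∧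
      R = (tlZ (G i ^ N - 1) %ₘ f₀).map C +
        C (C (p : ℤ_[p]) * X) * ((QQ * (tlZ (G i ^ N - 1) /ₘ f₀)) %ₘ f₀).map C +
        C (C (p : ℤ_[p]) ^ 2) * e ∧
      ∀ {F : Type} [CommRing F] (φ : ℤ_[p] →+* F) (v : ℤ_[p]) (θ : F),
        f₀.eval₂ φ θ = φ (p * v) * QQ.eval₂ φ θ →
        ((G i).eval₂ φ θ) ^ (N * p ^ s) - 1 = (p : F) ^ s *
          R.eval₂ (φ.comp (evalRingHom v)) θ := by
    intro s i hs
    refine exists_log_poly hf hQdeg (by rw [hfdeg]; exact hnp) (G i) N ?_ s hs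
    rw [hfdeg]
    exact hy i
  choose! R e hR1 hR2 hR3 using hR
  choose φ hφ1 hφ2 hφ3 using fun s => hV (Matrix.of fun (j : Fin n) i => (e s i).coeff j)
  have hmat : ∀ s, 2 ≤ s → (Matrix.of fun (j : Fin n) i => (R s i).coeff j) =
      M₀.map C + (C (p : ℤ_[p]) * X) • M₁.map C + (C (p : ℤ_[p])) ^ 2 •
        (Matrix.of fun (j : Fin n) i => (e s i).coeff j) := by
    intro s hs
    refine Matrix.ext fun j i => ?_
    rw [Matrix.of_apply, hR2 s i hs]
    simp only [coeff_add, coeff_C_mul, coeff_map, Matrix.add_apply, Matrix.smul_apply,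
      Matrix.map_apply, Matrix.of_apply, smul_eq_mul, M₀, M₁]
  -- a contradiction from too many parameters
  by_contra hcon
  push Not at hcon
  obtain ⟨T, hTS, hTc⟩ := Finset.exists_subset_card_eq (s := S) (n := d + 1) (by omega)
  let en : Fin (d + 1) ≃ T := (Fintype.equivOfCardEq (by rw [Fintype.card_fin,
    Fintype.card_coe, hTc]))
  choose! v hv using hS'
  let w : Fin (d + 1) → ℤ_[p] := fun j => ((v (en j) : ℤ) : ℤ_[p])
  have hw : Function.Injective w := by
    intro a b hab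
    have h1 : v (en a) = v (en b) := by
      have : ((v (en a) : ℤ) : ℤ_[p]) = ((v (en b) : ℤ) : ℤ_[p]) := hab
      exact_mod_cast this
    have h2 : ((en a : T) : ℤ) = (en b : T) := by
      rw [hv _ (hTS (en a).2), hv _ (hTS (en b).2), h1]
    exact en.injective (Subtype.ext h2)
  obtain ⟨δ, hδ, hzb⟩ := zeros_bound d w hw
  have htend : ∀ j : Fin (d + 1), ∀ᶠ s : ℕ in atTop, ‖(φ s).eval (w j)‖ < δ := by
    intro j
    obtain ⟨K, _, _, θ, b1, b2, b3, b4, b5⟩ := hS _ (hTS (en j).2)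
    rw [hv _ (hTS (en j).2)] at b1
    have h1 := tendsto_det (p := p) (k := ℂ_[p]) hP hdeg hcop g hgQ t₀ (v (en j)) f₀ hf₀ N hy R
      (fun s i hs => by rw [← hfdeg']; exact hR1 s i hs)
      (fun s i hs θ hθ => hR3 s i hs (emb p ℂ_[p]) _ θ hθ) V K θ b1 b2 b3 b4 b5
    have h2 : Tendsto (fun s => ‖(p : ℤ_[p]) ^ d * (φ s).eval (w j)‖) atTop (𝓝 0) := by
      have h3 := h1.norm
      rw [norm_zero] at h3
      refine h3.congr' ?_
      filter_upwards [eventually_ge_atTop 2] with s hs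
      rw [hmat s hs, hφ1 s, eval_mul, eval_pow, eval_C]
    have hpd : 0 < ‖(p : ℤ_[p]) ^ d‖ := by
      rw [norm_pos_iff]
      exact pow_ne_zero _ (by exact_mod_cast hp.out.ne_zero)
    filter_upwards [h2.eventually_lt_const (mul_pos hpd hδ)] with s hs
    rw [norm_mul] at hs
    exact lt_of_mul_lt_mul_left hs hpd.le
  obtain ⟨s, hs⟩ := (eventually_all.2 htend).exists
  obtain ⟨j, hj⟩ := hzb (φ s) (hφ2 s) (hφ3 s)
  exact absurd (hs j) (not_lt.2 hj)

end Pool.Agent.Helper31_Leo
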