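import Pool.Agent.Helper31_Leo.PencilInt

/-!
# Expansion of `((1 + y)^(p^s) - 1) / p^s` when `y^n` is divisible by `p`
-/

set_option autoImplicit false

namespace Pool.Agent.Helper31_Leo

variable {p : ℕ} [hp : Fact p.Prime]

theorem isUnit_natCast {m : ℕ} (h : ¬ p ∣ m) : IsUnit (m : ℤ_[p]) := by
  apply isUnit_of_toZMod
  rw [map_natCast]
  intro h0
  exact h ((ZMod.natCast_eq_zero_iff m p).1 h0)

variable (p) in
/-- The coefficients of the truncated logarithm. -/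
noncomputable def lc (m : ℕ) : ℤ_[p] := (-1) ^ m * Ring.inverse ((m + 1 : ℕ) : ℤ_[p])

/-- Binomial coefficients `C(p^s - 1, m)` for `m < p`. -/
theorem choose_pred (s m : ℕ) (hm : m < p) :
    ∃ t : ℤ_[p], ((p ^ s - 1).choose m : ℤ_[p]) = (-1) ^ m + (p : ℤ_[p]) ^ s * t := by
  have hpos : 0 < p ^ s := pow_pos hp.out.pos _
  induction m with
  | zero => exact ⟨0, by simp⟩
  | succ m ih =>
    obtain ⟨t, ht⟩ := ih (by omega)
    have hu : IsUnit ((m + 1 : ℕ) : ℤ_[p]) := isUnit_natCast fun h => by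
      have := Nat.le_of_dvd (Nat.succ_pos m) h
      omega
    obtain ⟨w, hw⟩ := hu.exists_right_inv
    have h1 : (p ^ s).choose (m + 1) = (p ^ s - 1).choose m + (p ^ s - 1).choose (m + 1) := by
      obtain ⟨q, hq⟩ : ∃ q, p ^ s = q + 1 := ⟨p ^ s - 1, by omega⟩
      rw [hq, Nat.add_sub_cancel, Nat.choose_succ_succ]
    have h2 : (p ^ s).choose (m + 1) * (m + 1) = p ^ s * (p ^ s - 1).choose m := by
      obtain ⟨q, hq⟩ : ∃ q, p ^ s = q + 1 := ⟨p ^ s - 1, by omega⟩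
      rw [hq, Nat.add_sub_cancel, Nat.add_one_mul_choose_eq]
    have h3 : (((p ^ s).choose (m + 1) : ℕ) : ℤ_[p]) * ((m + 1 : ℕ) : ℤ_[p]) =
        (p : ℤ_[p]) ^ s * (((p ^ s - 1).choose m : ℕ) : ℤ_[p]) := by exact_mod_cast h2
    have h4 : (((p ^ s).choose (m + 1) : ℕ) : ℤ_[p]) =
        (p : ℤ_[p]) ^ s * ((((p ^ s - 1).choose m : ℕ) : ℤ_[p]) * w) := by
      calc (((p ^ s).choose (m + 1) : ℕ) : ℤ_[p])
          = (((p ^ s).choose (m + 1) : ℕ) : ℤ_[p]) * (((m + 1 : ℕ) : ℤ_[p]) * w) := by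
            rw [hw, mul_one]
        _ = _ := by rw [← mul_assoc, h3]; ring
    refine ⟨((p ^ s - 1).choose m : ℤ_[p]) * w - t, ?_⟩
    have h5 : (((p ^ s).choose (m + 1) : ℕ) : ℤ_[p]) =
        ((p ^ s - 1).choose m : ℤ_[p]) + ((p ^ s - 1).choose (m + 1) : ℤ_[p]) := by
      exact_mod_cast h1
    rw [h5, ht] at h4
    rw [ht]
    linear_combination h4

/-- `C(p^s, m + 1) = p^s (lc m + p^2 e)` for `m + 1 < p`, `s ≥ 2`. -/
theorem choose_small (s m : ℕ) (hs : 2 ≤ s) (hm : m + 1 < p) :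
    ∃ e : ℤ_[p], ((p ^ s).choose (m + 1) : ℤ_[p]) =
      (p : ℤ_[p]) ^ s * (lc p m + (p : ℤ_[p]) ^ 2 * e) := by
  have hpos : 0 < p ^ s := pow_pos hp.out.pos _
  obtain ⟨t, ht⟩ := choose_pred (p := p) s m (by omega)
  have hu : IsUnit ((m + 1 : ℕ) : ℤ_[p]) := isUnit_natCast fun h => by
    have := Nat.le_of_dvd (Nat.succ_pos m) h
    omega
  have h2 : (p ^ s).choose (m + 1) * (m + 1) = p ^ s * (p ^ s - 1).choose m := by
    obtain ⟨q, hq⟩ : ∃ q, p ^ s = q + 1 := ⟨p ^ s - 1, by omega⟩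
    rw [hq, Nat.add_sub_cancel, Nat.add_one_mul_choose_eq]
  have h3 : (((p ^ s).choose (m + 1) : ℕ) : ℤ_[p]) * ((m + 1 : ℕ) : ℤ_[p]) =
      (p : ℤ_[p]) ^ s * (((p ^ s - 1).choose m : ℕ) : ℤ_[p]) := by exact_mod_cast h2
  set w := Ring.inverse ((m + 1 : ℕ) : ℤ_[p]) with hw
  have hw1 : ((m + 1 : ℕ) : ℤ_[p]) * w = 1 := Ring.mul_inverse_cancel _ hu
  obtain ⟨r, rfl⟩ : ∃ r, s = r + 2 := ⟨s - 2, by omega⟩
  refine ⟨(p : ℤ_[p]) ^ r * t * w, ?_⟩
  calc (((p ^ (r + 2)).choose (m + 1) : ℕ) : ℤ_[p])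
      = (((p ^ (r + 2)).choose (m + 1) : ℕ) : ℤ_[p]) * (((m + 1 : ℕ) : ℤ_[p]) * w) := by
        rw [hw1, mul_one]
    _ = _ := by
        rw [← mul_assoc, h3, ht, lc, ← hw, pow_add (p : ℤ_[p]) r 2]
        ring

/-- Divisibility of the large terms. -/
theorem choose_large (s M : ℕ) (hM : 0 < M) :
    ∃ (v : ℕ) (e : ℤ_[p]), p ^ v ∣ M ∧
      ((p ^ s).choose M : ℤ_[p]) * (p : ℤ_[p]) ^ v = (p : ℤ_[p]) ^ s * e := by
  have hpos : 0 < p ^ s := pow_pos hp.out.pos _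
  obtain ⟨v, M', hM', rfl⟩ := Nat.exists_eq_pow_mul_and_not_dvd hM.ne' p hp.out.ne_one
  have hu : IsUnit (M' : ℤ_[p]) := isUnit_natCast hM'
  obtain ⟨w, hw⟩ := hu.exists_right_inv
  obtain ⟨m, hm⟩ : ∃ m, p ^ v * M' = m + 1 := ⟨p ^ v * M' - 1, by omega⟩
  have h2 : (p ^ s).choose (m + 1) * (m + 1) = p ^ s * (p ^ s - 1).choose m := by
    obtain ⟨q, hq⟩ : ∃ q, p ^ s = q + 1 := ⟨p ^ s - 1, by omega⟩
    rw [hq, Nat.add_sub_cancel, Nat.add_one_mul_choose_eq]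
  rw [← hm] at h2
  have h3 : (((p ^ s).choose (p ^ v * M') : ℕ) : ℤ_[p]) * ((p : ℤ_[p]) ^ v * (M' : ℤ_[p])) =
      (p : ℤ_[p]) ^ s * (((p ^ s - 1).choose m : ℕ) : ℤ_[p]) := by exact_mod_cast h2
  refine ⟨v, ((p ^ s - 1).choose m : ℤ_[p]) * w, dvd_mul_right _ _, ?_⟩
  calc (((p ^ s).choose (p ^ v * M') : ℕ) : ℤ_[p]) * (p : ℤ_[p]) ^ v
      = (((p ^ s).choose (p ^ v * M') : ℕ) : ℤ_[p]) * (p : ℤ_[p]) ^ v * ((M' : ℤ_[p]) * w) := by
        rw [hw, mul_one]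
    _ = _ := by
        linear_combination w * h3

theorem expand {A : Type*} [CommRing A] [Algebra ℤ_[p] A] {n : ℕ} (hpn : 3 * n ≤ p)
    (y c : A) (hy : y ^ n = (p : A) * c) (s : ℕ) (hs : 2 ≤ s) :
    ∃ E : A, (1 + y) ^ (p ^ s) - 1 = (p : A) ^ s *
      (∑ m ∈ Finset.range (p - 1), algebraMap ℤ_[p] A (lc p m) * y ^ (m + 1) +
        (p : A) ^ 2 * E) := by
  have hp1 : 1 ≤ p := hp.out.one_lt.le
  have h1 : (1 + y) ^ (p ^ s) - 1 =
      ∑ m ∈ Finset.range (p ^ s), ((p ^ s).choose (m + 1) : A) * y ^ (m + 1) := by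
    rw [add_comm 1 y, add_pow, Finset.sum_range_succ']
    simp [mul_comm]
  have hsplit : ∃ r, p ^ s = (p - 1) + r := by
    have : p ≤ p ^ s := Nat.le_self_pow (by omega) p
    exact ⟨p ^ s - (p - 1), by omega⟩
  obtain ⟨r, hr⟩ := hsplit
  have hpA : (p : A) = algebraMap ℤ_[p] A p := by simp
  have hsmall : ∀ m ∈ Finset.range (p - 1), ∃ e : A,
      ((p ^ s).choose (m + 1) : A) * y ^ (m + 1) =
        (p : A) ^ s * (algebraMap ℤ_[p] A (lc p m) * y ^ (m + 1) + (p : A) ^ 2 * e) := by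
    intro m hm
    rw [Finset.mem_range] at hm
    obtain ⟨e, he⟩ := choose_small (p := p) s m hs (by omega)
    have h2 := congrArg (algebraMap ℤ_[p] A) he
    rw [map_mul, map_add, map_mul, map_pow, map_pow, map_natCast, map_natCast] at h2
    refine ⟨algebraMap ℤ_[p] A e * y ^ (m + 1), ?_⟩
    rw [h2]
    ring
  have hlarge : ∀ m ∈ Finset.range r, ∃ e : A,
      ((p ^ s).choose (p - 1 + m + 1) : A) * y ^ (p - 1 + m + 1) =
        (p : A) ^ s * ((p : A) ^ 2 * e) := by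
    intro m _
    obtain ⟨v, e, hv, he⟩ := choose_large (p := p) s (p - 1 + m + 1) (by omega)
    have hle : n * (v + 2) ≤ p - 1 + m + 1 := by
      have h3 : p ^ v ≤ p - 1 + m + 1 := Nat.le_of_dvd (by omega) hv
      rcases Nat.eq_zero_or_pos v with rfl | hv0
      · omega
      · obtain ⟨u, rfl⟩ : ∃ u, v = u + 1 := ⟨v - 1, by omega⟩
        have h4 : u + 1 ≤ p ^ u := Nat.lt_pow_self hp.out.one_lt
        calc n * (u + 1 + 2) ≤ 3 * n * (u + 1) := by nlinarith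
          _ ≤ p * p ^ u := Nat.mul_le_mul hpn h4
          _ = p ^ (u + 1) := by rw [pow_succ, mul_comm]
          _ ≤ _ := h3
    obtain ⟨q, hq⟩ : ∃ q, p - 1 + m + 1 = n * (v + 2) + q := ⟨_, (Nat.add_sub_cancel' hle).symm⟩
    have h2 := congrArg (algebraMap ℤ_[p] A) he
    rw [map_mul, map_mul, map_pow, map_pow, map_natCast, map_natCast] at h2
    refine ⟨algebraMap ℤ_[p] A e * c ^ (v + 2) * y ^ q, ?_⟩
    have h3 : y ^ (p - 1 + m + 1) = (p : A) ^ (v + 2) * c ^ (v + 2) * y ^ q := by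
      rw [hq, pow_add, pow_mul, hy, mul_pow]
    rw [h3]
    calc ((p ^ s).choose (p - 1 + m + 1) : A) * ((p : A) ^ (v + 2) * c ^ (v + 2) * y ^ q)
        = (((p ^ s).choose (p - 1 + m + 1) : A) * (p : A) ^ v) * ((p : A) ^ 2 * c ^ (v + 2) *
            y ^ q) := by ring
      _ = _ := by rw [h2]; ring
  choose! e1 he1 using hsmall
  choose! e2 he2 using hlarge
  refine ⟨∑ m ∈ Finset.range (p - 1), e1 m + ∑ m ∈ Finset.range r, e2 m, ?_⟩
  rw [h1, hr, Finset.sum_range_add, ← hr, Finset.sum_congr rfl he1, Finset.sum_congr rfl he2,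
    ← Finset.mul_sum, ← Finset.mul_sum, Finset.sum_add_distrib, ← Finset.mul_sum,
    ← Finset.mul_sum]
  ring

end Pool.Agent.Helper31_Leo
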