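import Pool.Agent.Helper65_Dens.Count

/-!
# Counting integer vectors in boxes along one coordinate
-/

set_option autoImplicit false

open Pool.Agent.Helper65_Dens

namespace Pool.Agent.Helper31_Leo

variable {κ : Type} [Fintype κ] [DecidableEq κ]

/-- The number of elements of `S` in a box. -/
noncomputable def cnt (lo : κ → ℤ) (N : κ → ℕ) (S : Set (κ → ℤ)) : ℕ :=
  ({a | (∀ q, lo q ≤ a q ∧ a q < lo q + N q) ∧ a ∈ S} : Set (κ → ℤ)).ncard

theorem cnt_mono (lo : κ → ℤ) (N : κ → ℕ) {S T : Set (κ → ℤ)} (h : S ⊆ T) :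
    cnt lo N S ≤ cnt lo N T :=
  Set.ncard_le_ncard (fun _ ha => ⟨ha.1, h ha.2⟩) (box_inter_finite lo N T)

theorem cnt_univ (lo : κ → ℤ) (N : κ → ℕ) : cnt lo N Set.univ = ∏ q, N q := by
  have h : ({a | (∀ q, lo q ≤ a q ∧ a q < lo q + N q) ∧ a ∈ (Set.univ : Set (κ → ℤ))} :
      Set (κ → ℤ)) = (box lo N : Set (κ → ℤ)) := by
    ext a
    simp [mem_box]
  rw [cnt, h, Set.ncard_coe_finset, box, Fintype.card_piFinset]
  simp

theorem cnt_union (lo : κ → ℤ) (N : κ → ℕ) (S T : Set (κ → ℤ)) :
    cnt lo N (S ∪ T) ≤ cnt lo N S + cnt lo N T := by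
  refine le_trans ?_ (Set.ncard_union_le _ _)
  refine Set.ncard_le_ncard ?_ ((box_inter_finite lo N S).union (box_inter_finite lo N T))
  rintro a ⟨h1, h2 | h2⟩
  · exact Or.inl ⟨h1, h2⟩
  · exact Or.inr ⟨h1, h2⟩

theorem cnt_biUnion (lo : κ → ℤ) (N : κ → ℕ) {I : Type*} (s : Finset I)
    (S : I → Set (κ → ℤ)) : cnt lo N (⋃ i ∈ s, S i) ≤ ∑ i ∈ s, cnt lo N (S i) := by
  classical
  induction s using Finset.induction_on with
  | empty =>
    have : ({a | (∀ q, lo q ≤ a q ∧ a q < lo q + N q) ∧ a ∈ ⋃ i ∈ (∅ : Finset I), S i} :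
        Set (κ → ℤ)) = ∅ := by
      ext a; simp
    rw [cnt, this]; simp
  | insert i s hi ih =>
    rw [Finset.set_biUnion_insert, Finset.sum_insert hi]
    exact (cnt_union lo N _ _).trans (Nat.add_le_add_left ih _)

/-- Counting along one coordinate. -/
theorem fiber_count (lo : κ → ℤ) (N : κ → ℕ) (q₀ : κ) {A S : Set (κ → ℤ)}
    (hA : ∀ a ∈ A, ∀ t, Function.update a q₀ t ∈ A) (hSA : S ⊆ A) (c : ℕ)
    (h : ∀ (a : κ → ℤ) (s : Finset ℤ), (∀ t ∈ s, (lo q₀ ≤ t ∧ t < lo q₀ + N q₀) ∧
      Function.update a q₀ t ∈ S) → s.card ≤ c) :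
    N q₀ * cnt lo N S ≤ c * cnt lo N A := by
  classical
  have hSf := box_inter_finite lo N S
  have hAf := box_inter_finite lo N A
  set S' := hSf.toFinset with hS'
  set A' := hAf.toFinset with hA'
  have hS1 : cnt lo N S = S'.card := Set.ncard_eq_toFinset_card _ hSf
  have hA1 : cnt lo N A = A'.card := Set.ncard_eq_toFinset_card _ hAf
  have hmemS : ∀ a, a ∈ S' ↔ (∀ q, lo q ≤ a q ∧ a q < lo q + N q) ∧ a ∈ S := fun a =>
    hSf.mem_toFinset
  have hmemA : ∀ a, a ∈ A' ↔ (∀ q, lo q ≤ a q ∧ a q < lo q + N q) ∧ a ∈ A := fun a =>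
    hAf.mem_toFinset
  rcases Nat.eq_zero_or_pos (N q₀) with h0 | h0
  · rw [h0, zero_mul]; exact Nat.zero_le _
  let f : (κ → ℤ) → (κ → ℤ) := fun a => Function.update a q₀ (lo q₀)
  let T := A'.filter fun a => a q₀ = lo q₀
  have hmaps : ∀ a ∈ S', f a ∈ T := by
    intro a ha
    rw [hmemS] at ha
    rw [Finset.mem_filter, hmemA]
    refine ⟨⟨fun q => ?_, hA a (hSA ha.2) _⟩, ?_⟩
    · by_cases hq : q = q₀
      · subst hq
        simp only [f, Function.update_self]
        omega
      · simp only [f, Function.update_of_ne hq]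
        exact ha.1 q
    · simp [f]
  have hcount : S'.card ≤ c * T.card := by
    refine Finset.card_le_mul_card_image_of_maps_to hmaps c fun b hb => ?_
    rw [← Finset.card_image_of_injOn (f := fun a : κ → ℤ => a q₀)]
    · apply h b
      intro t ht
      rw [Finset.mem_image] at ht
      obtain ⟨a, ha, rfl⟩ := ht
      rw [Finset.mem_filter, hmemS] at ha
      have h1 : Function.update b q₀ (a q₀) = a := by
        rw [← ha.2]
        funext q
        by_cases hq : q = q₀
        · subst hq; simp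
        · simp [f, Function.update_of_ne hq]
      rw [h1]
      exact ⟨ha.1.1 q₀, ha.1.2⟩
    · intro a ha a' ha' haa
      rw [Finset.mem_coe, Finset.mem_filter] at ha ha'
      funext q
      by_cases hq : q = q₀
      · subst hq; exact haa
      · have h1 := congrFun (ha.2.trans ha'.2.symm) q
        simpa [f, Function.update_of_ne hq] using h1
  have hcount2 : T.card * N q₀ ≤ A'.card := by
    have h1 : (T ×ˢ Finset.Ico (lo q₀) (lo q₀ + N q₀)).card ≤ A'.card := by
      refine Finset.card_le_card_of_injOn (fun z => Function.update z.1 q₀ z.2) ?_ ?_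
      · rintro ⟨b, t⟩ hz
        rw [Finset.mem_coe, Finset.mem_product, Finset.mem_filter, hmemA, Finset.mem_Ico] at hz
        rw [Finset.mem_coe, hmemA]
        refine ⟨fun q => ?_, hA _ hz.1.1.2 _⟩
        by_cases hq : q = q₀
        · subst hq
          simp only [Function.update_self]
          exact hz.2
        · simp only [Function.update_of_ne hq]
          exact hz.1.1.1 q
      · rintro ⟨b, t⟩ hz ⟨b', t'⟩ hz' hbt
        rw [Finset.mem_coe, Finset.mem_product, Finset.mem_filter] at hz hz'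
        have h2 : t = t' := by
          have := congrFun hbt q₀
          simpa using this
        have h3 : b = b' := by
          funext q
          by_cases hq : q = q₀
          · subst hq
            exact hz.1.2.trans hz'.1.2.symm
          · have := congrFun hbt q
            simpa [Function.update_of_ne hq] using this
        rw [h2, h3]
    rw [Finset.card_product, Int.card_Ico] at h1
    simpa using h1
  rw [hS1, hA1]
  calc N q₀ * S'.card ≤ N q₀ * (c * T.card) := Nat.mul_le_mul_left _ hcount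
    _ = c * (T.card * N q₀) := by ring
    _ ≤ c * A'.card := Nat.mul_le_mul_left _ hcount2

end Pool.Agent.Helper31_Leo
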