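import Pool.Agent.Helper31_Leo.Count

/-!
# Leopoldt's conjecture in families, uniformly in the prime
-/

set_option autoImplicit false

open Polynomial NumberField Pool.Agent.Helper85_Leo Pool.Agent.Helper65_Leo

namespace Pool.Agent.Helper31_Leo

/-- Clearing denominators in a Bezout identity. -/
theorem exists_bezout_int {a b : ℤ[X]}
    (h : IsCoprime (a.map (Int.castRingHom ℚ)) (b.map (Int.castRingHom ℚ))) :
    ∃ (c : ℤ) (u v : ℤ[X]), c ≠ 0 ∧ u * a + v * b = C c := by
  obtain ⟨u, v, huv⟩ := h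
  obtain ⟨c1, hm1, hc1⟩ := IsLocalization.integerNormalization_spec (nonZeroDivisors ℤ) u
  obtain ⟨c2, hm2, hc2⟩ := IsLocalization.integerNormalization_spec (nonZeroDivisors ℤ) v
  set u' := IsLocalization.integerNormalization (nonZeroDivisors ℤ) u
  set v' := IsLocalization.integerNormalization (nonZeroDivisors ℤ) v
  refine ⟨c1 * c2, C c2 * u', C c1 * v',
    mul_ne_zero (nonZeroDivisors.ne_zero hm1) (nonZeroDivisors.ne_zero hm2), ?_⟩
  apply Polynomial.map_injective (Int.castRingHom ℚ) Int.cast_injective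
  have e : (algebraMap ℤ ℚ) = Int.castRingHom ℚ := rfl
  rw [e] at hc1 hc2
  simp only [Polynomial.map_add, Polynomial.map_mul, Polynomial.map_C, hc1, hc2]
  rw [← Int.cast_smul_eq_zsmul ℚ, ← Int.cast_smul_eq_zsmul ℚ, smul_eq_C_mul, smul_eq_C_mul]
  have h1 : (C ((Int.castRingHom ℚ) (c1 * c2)) : ℚ[X]) =
      C (c1 : ℚ) * C (c2 : ℚ) := by
    rw [← C_mul]; simp
  rw [h1]
  simp only [eq_intCast (Int.castRingHom ℚ)]
  linear_combination (C (c1 : ℚ) * C (c2 : ℚ)) * huv

theorem exists_goodPrime (P : ℤ[X]) {ι : Type} [Fintype ι] (g : ι → ℤ[X])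
    (hg : ∀ i, 0 < (g i).natDegree)
    (hcop : ∀ i l, i ≠ l → IsCoprime ((g i).map (Int.castRingHom ℚ))
      ((g l).map (Int.castRingHom ℚ))) :
    ∃ p₀ : ℕ, ∀ p : ℕ, p.Prime → p₀ ≤ p → GoodPrime P g p := by
  classical
  have h1 : ∀ i l, ∃ (c : ℤ) (u v : ℤ[X]), c ≠ 0 ∧ (i ≠ l → u * g i + v * g l = C c) := by
    intro i l
    by_cases h : i = l
    · exact ⟨1, 0, 0, one_ne_zero, fun h' => absurd h h'⟩
    · obtain ⟨c, u, v, hc, huv⟩ := exists_bezout_int (hcop i l h)
      exact ⟨c, u, v, hc, fun _ => huv⟩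
  choose c u v hc huv using h1
  let m : ι → ℤ := fun i => (g i).leadingCoeff * (g i).natDegree
  have hm : ∀ i, m i ≠ 0 := by
    intro i
    refine mul_ne_zero ?_ ?_
    · rw [Ne, leadingCoeff_eq_zero]
      rintro h
      have := hg i
      rw [h, natDegree_zero] at this
      omega
    · exact_mod_cast (hg i).ne'
  refine ⟨3 * P.natDegree + 1 + ∑ i, (m i).natAbs + ∑ i, ∑ l, (c i l).natAbs,
    fun p hp hle => ?_⟩
  have hpr : Fact p.Prime := ⟨hp⟩
  have hnz : ∀ z : ℤ, z ≠ 0 → z.natAbs < p → (z : ZMod p) ≠ 0 := by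
    intro z hz hlt h
    rw [ZMod.intCast_zmod_eq_zero_iff_dvd] at h
    have h2 := Int.natAbs_dvd_natAbs.2 h
    rw [Int.natAbs_natCast] at h2
    have h3 := Nat.le_of_dvd (Int.natAbs_pos.2 hz) h2
    omega
  refine ⟨by omega, fun i h => ?_, fun i l hil => ?_⟩
  · have h2 : (m i).natAbs < p := by
      have := Finset.single_le_sum (f := fun i => (m i).natAbs) (fun _ _ => Nat.zero_le _)
        (Finset.mem_univ i)
      omega
    apply hnz (m i) (hm i) h2
    have h3 := congrArg (fun q => q.coeff ((g i).natDegree - 1)) h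
    simp only [coeff_derivative, coeff_map, coeff_zero] at h3
    obtain ⟨r, hr⟩ : ∃ r, (g i).natDegree = r + 1 := ⟨(g i).natDegree - 1, by have := hg i; omega⟩
    rw [hr, Nat.add_sub_cancel, ← hr] at h3
    change (((g i).leadingCoeff * ((g i).natDegree : ℤ) : ℤ) : ZMod p) = 0
    rw [← h3, Int.cast_mul, leadingCoeff]
    have h4 : (((g i).natDegree : ℤ) : ZMod p) = (r : ZMod p) + 1 := by
      rw [hr]; push_cast; ring
    rw [h4]
    simp
  · have h2 : (c i l).natAbs < p := by
      have h3 := Finset.single_le_sum (f := fun i => ∑ l, (c i l).natAbs)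
        (fun _ _ => Nat.zero_le _) (Finset.mem_univ i)
      have h4 := Finset.single_le_sum (f := fun l => (c i l).natAbs)
        (fun _ _ => Nat.zero_le _) (Finset.mem_univ l)
      omega
    have h3 := hnz _ (hc i l) h2
    have h4 := congrArg (Polynomial.map (Int.castRingHom (ZMod p))) (huv i l hil)
    rw [Polynomial.map_add, Polynomial.map_mul, Polynomial.map_mul, Polynomial.map_C] at h4
    refine ⟨C ((c i l : ZMod p)⁻¹) * (u i l).map (Int.castRingHom (ZMod p)),
      C ((c i l : ZMod p)⁻¹) * (v i l).map (Int.castRingHom (ZMod p)), ?_⟩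
    have h5 : (C ((c i l : ZMod p)⁻¹) * C ((c i l : ZMod p)) : (ZMod p)[X]) = 1 := by
      rw [← C_mul, inv_mul_cancel₀ h3, C_1]
    rw [eq_intCast (Int.castRingHom (ZMod p))] at h4
    linear_combination C ((c i l : ZMod p)⁻¹) * h4 + h5

theorem sum_natDegree {P Q : ℤ[X]} (hdeg : Q.natDegree < P.natDegree)
    (hcopPQ : IsCoprime P Q) {ι : Type} [Fintype ι] (g : ι → ℤ[X]) (hgQ : ∀ i, g i ∣ Q)
    (hcop : ∀ i l, i ≠ l → IsCoprime ((g i).map (Int.castRingHom ℚ))
      ((g l).map (Int.castRingHom ℚ))) :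
    ∑ i, (g i).natDegree < P.natDegree := by
  classical
  have hinj : Function.Injective (Int.castRingHom ℚ) := Int.cast_injective
  have hQ0 : Q ≠ 0 := by
    rintro rfl
    obtain ⟨a, b, hab⟩ := hcopPQ
    rw [mul_zero, add_zero] at hab
    have h1 : IsUnit P := IsUnit.of_mul_eq_one_right _ hab
    have h2 := natDegree_eq_zero_of_isUnit h1
    omega
  have h1 : (∏ i, (g i).map (Int.castRingHom ℚ)) ∣ Q.map (Int.castRingHom ℚ) :=
    Finset.prod_dvd_of_coprime (fun i _ l _ hil => hcop i l hil)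
      (fun i _ => Polynomial.map_dvd _ (hgQ i))
  have h2 : Q.map (Int.castRingHom ℚ) ≠ 0 := (Polynomial.map_ne_zero_iff hinj).2 hQ0
  have h3 := natDegree_le_of_dvd h1 h2
  have h4 : ∀ i ∈ Finset.univ, (g i).map (Int.castRingHom ℚ) ≠ 0 := by
    intro i _
    refine (Polynomial.map_ne_zero_iff hinj).2 ?_
    rintro h
    have := hgQ i
    rw [h, zero_dvd_iff] at this
    exact hQ0 this
  rw [natDegree_prod _ _ h4, natDegree_map_eq_of_injective hinj] at h3
  simp only [natDegree_map_eq_of_injective hinj] at h3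
  omega

/-- A set of integers all finite subsets of which have at most `m` elements. -/
theorem encard_le_of_finset {α : Type*} {A : Set α} {m : ℕ}
    (h : ∀ S : Finset α, (∀ t ∈ S, t ∈ A) → S.card ≤ m) : A.encard ≤ m := by
  by_contra hcon
  push Not at hcon
  have h1 : ((m + 1 : ℕ) : ℕ∞) ≤ A.encard := by
    push_cast
    exact Order.add_one_le_of_lt hcon
  obtain ⟨B, hB, hBc⟩ := Set.exists_subset_encard_eq h1
  have hfin : B.Finite := Set.finite_of_encard_eq_coe hBc
  have h2 := h hfin.toFinset fun t ht => hB (hfin.mem_toFinset.1 ht)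
  rw [hfin.encard_eq_coe_toFinset_card] at hBc
  have h3 : hfin.toFinset.card = m + 1 := by exact_mod_cast hBc
  omega

/-- **Leopoldt's conjecture in families, uniformly in the prime.** -/
theorem leopoldt_uniform {P Q : ℤ[X]} (hP : P.Monic) (hdeg : Q.natDegree < P.natDegree)
    (hPQ : IsCoprime P Q) {ι : Type} [Fintype ι] (g : ι → ℤ[X]) (hg : ∀ i, 0 < (g i).natDegree)
    (hgQ : ∀ i, g i ∣ Q) (hcop : ∀ i l, i ≠ l → IsCoprime ((g i).map (Int.castRingHom ℚ))
      ((g l).map (Int.castRingHom ℚ))) :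
    ∃ B : ℕ, (∀ (p : ℕ) [Fact p.Prime], B ≤ p → ∀ a : ℤ,
      {t : ℤ | t ≡ a [ZMOD p] ∧ Fails P Q (Fintype.card ι) p t}.encard ≤ Fintype.card ι) ∧
      ∀ x : ℕ, {t : ℤ | ∃ (p : ℕ) (_ : Fact p.Prime), p ≤ x ∧
        Fails P Q (Fintype.card ι) p t}.encard ≤ (B + Fintype.card ι * x ^ 2 : ℕ) := by
  classical
  set r := Fintype.card ι with hr
  obtain ⟨p₀, hp₀⟩ := exists_goodPrime P g hg hcop
  have hsum := sum_natDegree hdeg hPQ g hgQ hcop
  have hclass : ∀ (p : ℕ) [Fact p.Prime], p₀ ≤ p → ∀ (a : ℤ) (S : Finset ℤ),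
      (∀ t ∈ S, t ≡ a [ZMOD p] ∧ Fails P Q r p t) → S.card ≤ r := by
    intro p hp hle a S hS
    refine class_bound hP hdeg hPQ g hgQ hsum (hp₀ p hp.out hle) a S (fun t ht => (hS t ht).2)
      fun t ht => ?_
    obtain ⟨v, hv⟩ := ((hS t ht).1.symm).dvd
    exact ⟨v, by linear_combination hv⟩
  -- at most `r p` exceptions
  have hall : ∀ (p : ℕ) [Fact p.Prime], p₀ ≤ p → {t : ℤ | Fails P Q r p t}.encard ≤
      (r * p : ℕ) := by
    intro p hp hle
    refine encard_le_of_finset fun S hS => ?_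
    have h1 : S.card ≤ r * (S.image fun t : ℤ => (t : ZMod p)).card := by
      refine Finset.card_le_mul_card_image S r fun b hb => ?_
      obtain ⟨a, -, rfl⟩ := Finset.mem_image.1 hb
      refine hclass p hle a _ fun t ht => ?_
      rw [Finset.mem_filter] at ht
      exact ⟨(ZMod.intCast_eq_intCast_iff _ _ _).1 ht.2, hS t ht.1⟩
    refine h1.trans (Nat.mul_le_mul_left r ?_)
    exact (Finset.card_le_univ _).trans (ZMod.card p).le
  have hfin : ∀ (p : ℕ) [Fact p.Prime], {t : ℤ | Fails P Q r p t}.Finite := by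
    intro p hp
    refine (leopoldt_cofinite (O := ℤ) (F := ℚ) p hP hdeg hPQ g hg hgQ hcop).subset ?_
    rintro t ⟨K, i1, i2, θ, h1, h2, h3, h4, h5⟩
    refine ⟨K, i1, i2, inferInstance, θ, ?_, h2, h3, h4, h5⟩
    rw [aeval_map_algebraMap]
    exact h1
  let A : ℕ → Set ℤ := fun p => {t | ∃ _ : Fact p.Prime, Fails P Q r p t}
  have hA1 : ∀ p, p₀ ≤ p → (A p).encard ≤ (r * p : ℕ) := by
    intro p hle
    by_cases hp : p.Prime
    · have : Fact p.Prime := ⟨hp⟩
      refine (Set.encard_le_encard ?_).trans (hall p hle)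
      rintro t ⟨_, ht⟩
      exact ht
    · have : A p = ∅ := by
        ext t
        simp only [A, Set.mem_setOf_eq, Set.mem_empty_iff_false, iff_false]
        rintro ⟨h, -⟩
        exact hp h.out
      rw [this, Set.encard_empty]
      exact bot_le
  have hA2 : ∀ p, ∃ m : ℕ, (A p).encard ≤ m := by
    intro p
    by_cases hp : p.Prime
    · have : Fact p.Prime := ⟨hp⟩
      refine ⟨(hfin p).toFinset.card, ?_⟩
      rw [← (hfin p).encard_eq_coe_toFinset_card]
      refine Set.encard_le_encard ?_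
      rintro t ⟨_, ht⟩
      exact ht
    · refine ⟨0, ?_⟩
      have : A p = ∅ := by
        ext t
        simp only [A, Set.mem_setOf_eq, Set.mem_empty_iff_false, iff_false]
        rintro ⟨h, -⟩
        exact hp h.out
      rw [this, Set.encard_empty]
      exact bot_le
  choose m hm using hA2
  refine ⟨p₀ + ∑ p ∈ Finset.range p₀, m p, ?_, ?_⟩
  · intro p hp hle a
    refine encard_le_of_finset fun S hS => hclass p (by omega) a S hS
  · intro x
    have h1 : {t : ℤ | ∃ (p : ℕ) (_ : Fact p.Prime), p ≤ x ∧ Fails P Q r p t} ⊆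
        ⋃ p ∈ Finset.Icc 1 x, A p := by
      rintro t ⟨p, hp, hpx, ht⟩
      rw [Set.mem_iUnion₂]
      exact ⟨p, Finset.mem_Icc.2 ⟨hp.out.one_lt.le, hpx⟩, hp, ht⟩
    have h2 : ∀ s : Finset ℕ, (⋃ p ∈ s, A p).encard ≤
        ∑ p ∈ s, (A p).encard := by
      intro s
      induction s using Finset.induction_on with
      | empty => simp
      | insert a s ha ih =>
        rw [Finset.set_biUnion_insert, Finset.sum_insert ha]
        exact (Set.encard_union_le _ _).trans (add_le_add le_rfl ih)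
    refine (Set.encard_le_encard h1).trans ((h2 _).trans ?_)
    have h3 : ∀ p ∈ Finset.Icc 1 x, (A p).encard ≤
        ((if p < p₀ then m p else 0) + r * x : ℕ) := by
      intro p hp
      rw [Finset.mem_Icc] at hp
      by_cases h : p < p₀
      · rw [if_pos h]
        refine (hm p).trans ?_
        exact_mod_cast Nat.le_add_right _ _
      · rw [if_neg h, zero_add]
        refine (hA1 p (by omega)).trans ?_
        exact_mod_cast Nat.mul_le_mul_left r hp.2
    refine (Finset.sum_le_sum h3).trans ?_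
    rw [← Nat.cast_sum]
    have h4 : ∑ p ∈ Finset.Icc 1 x, ((if p < p₀ then m p else 0) + r * x) ≤
        p₀ + ∑ p ∈ Finset.range p₀, m p + r * x ^ 2 := by
      rw [Finset.sum_add_distrib, Finset.sum_const, Nat.card_Icc, Nat.add_sub_cancel, smul_eq_mul]
      have h5 : ∑ p ∈ Finset.Icc 1 x, (if p < p₀ then m p else 0) ≤
          ∑ p ∈ Finset.range p₀, m p := by
        rw [← Finset.sum_filter]
        refine Finset.sum_le_sum_of_subset fun p hp => ?_
        rw [Finset.mem_filter] at hp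
        exact Finset.mem_range.2 hp.2
      have h6 : x * (r * x) = r * x ^ 2 := by ring
      omega
    exact_mod_cast h4

end Pool.Agent.Helper31_Leo
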