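import Pool.Agent.Helper31_Leo.ModP
import Pool.Agent.Helper31_Leo.Coeff

/-!
# The matrices of the leading terms satisfy the hypothesis of `pencil_det`
-/

set_option autoImplicit false

open Polynomial Matrix

namespace Pool.Agent.Helper31_Leo

section field

variable {k : Type*} [Field k] {p : ℕ} [CharP k p] {ι : Type*} [Fintype ι]

theorem eq_zero_of_coeff {n : ℕ} {P : k[X]} (hP : P.degree < n) (h : ∀ j : Fin n, P.coeff j = 0) :
    P = 0 := by
  ext j
  rw [coeff_zero]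
  rcases lt_or_ge j n with hj | hj
  · exact h ⟨j, hj⟩
  · exact coeff_eq_zero_of_degree_lt (hP.trans_le (by exact_mod_cast hj))

theorem pencil_hyp {f Q : k[X]} (hf : f.Monic) (hQf : IsCoprime Q f) {n : ℕ}
    (hn : f.natDegree = n)
    (g : ι → k[X]) {N : ℕ} (hN : (N : k) ≠ 0)
    (hy : ∀ i, f ∣ (g i ^ N - 1) ^ (p - 1))
    (hg' : ∀ i, derivative (g i) ≠ 0) (hgg : ∀ i l, i ≠ l → IsCoprime (g i) (g l))
    (hdeg : ∑ i, (g i).natDegree < n) (α β : ι → k)
    (h1 : (Matrix.of fun (j : Fin n) i => (tlog p (g i ^ N - 1) %ₘ f).coeff j) *ᵥ α = 0)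
    (h2 : (Matrix.of fun (j : Fin n) i =>
        ((Q * (tlog p (g i ^ N - 1) /ₘ f)) %ₘ f).coeff j) *ᵥ α =
      (Matrix.of fun (j : Fin n) i => (tlog p (g i ^ N - 1) %ₘ f).coeff j) *ᵥ β) : α = 0 := by
  have hdn : f.degree = n := by rw [degree_eq_natDegree hf.ne_zero, hn]
  have hdeg1 : ∀ (a : ι → k) (P : ι → k[X]), (∑ i, C (a i) * (P i %ₘ f)).degree < n := by
    intro a P
    refine lt_of_le_of_lt (degree_sum_le _ _) ?_
    rw [Finset.sup_lt_iff]
    · intro i _
      refine lt_of_le_of_lt (degree_mul_le _ _) ?_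
      refine lt_of_le_of_lt (add_le_add_left degree_C_le _) ?_
      rw [zero_add, ← hdn]
      exact degree_modByMonic_lt _ hf
    · exact WithBot.bot_lt_coe n
  have hcoef : ∀ (a : ι → k) (P : ι → k[X]) (j : Fin n),
      (∑ i, C (a i) * (P i %ₘ f)).coeff j =
        ((Matrix.of fun (j : Fin n) i => (P i %ₘ f).coeff j) *ᵥ a) j := by
    intro a P j
    rw [finsetSum_coeff]
    simp [Matrix.mulVec, dotProduct, mul_comm]
  have h3 : ∑ i, C (α i) * (tlog p (g i ^ N - 1) %ₘ f) = 0 := by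
    refine eq_zero_of_coeff (hdeg1 α _) fun j => ?_
    rw [hcoef, h1]; rfl
  have h4 : ∑ i, C (α i) * ((Q * (tlog p (g i ^ N - 1) /ₘ f)) %ₘ f) -
      ∑ i, C (β i) * (tlog p (g i ^ N - 1) %ₘ f) = 0 := by
    refine eq_zero_of_coeff (n := n) ?_ fun j => ?_
    · exact lt_of_le_of_lt (degree_sub_le _ _) (max_lt (hdeg1 α _) (hdeg1 β _))
    · rw [coeff_sub, hcoef, hcoef, h2, sub_self]
  funext i
  refine modp_key (p := p) hf.ne_zero hQf g hN hy hg' hgg (by rw [hn]; exact hdeg) α β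
    (∑ i, C (α i) * (tlog p (g i ^ N - 1) /ₘ f)) ?_ ?_ i
  · calc ∑ i, C (α i) * tlog p (g i ^ N - 1)
        = ∑ i, (C (α i) * (tlog p (g i ^ N - 1) %ₘ f) +
            f * (C (α i) * (tlog p (g i ^ N - 1) /ₘ f))) := by
          refine Finset.sum_congr rfl fun i _ => ?_
          have := modByMonic_add_div (tlog p (g i ^ N - 1)) f
          linear_combination (-C (α i)) * this
      _ = _ := by rw [Finset.sum_add_distrib, h3, zero_add, ← Finset.mul_sum]
  · refine ⟨∑ i, C (α i) * ((Q * (tlog p (g i ^ N - 1) /ₘ f)) /ₘ f) -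
      ∑ i, C (β i) * (tlog p (g i ^ N - 1) /ₘ f), ?_⟩
    have h5 : Q * ∑ i, C (α i) * (tlog p (g i ^ N - 1) /ₘ f) =
        ∑ i, C (α i) * ((Q * (tlog p (g i ^ N - 1) /ₘ f)) %ₘ f) +
        f * ∑ i, C (α i) * ((Q * (tlog p (g i ^ N - 1) /ₘ f)) /ₘ f) := by
      rw [Finset.mul_sum, Finset.mul_sum, ← Finset.sum_add_distrib]
      refine Finset.sum_congr rfl fun i _ => ?_
      have := modByMonic_add_div (Q * (tlog p (g i ^ N - 1) /ₘ f)) f
      linear_combination (-C (α i)) * this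
    have h6 : ∑ i, C (β i) * tlog p (g i ^ N - 1) =
        ∑ i, C (β i) * (tlog p (g i ^ N - 1) %ₘ f) +
        f * ∑ i, C (β i) * (tlog p (g i ^ N - 1) /ₘ f) := by
      rw [Finset.mul_sum, ← Finset.sum_add_distrib]
      refine Finset.sum_congr rfl fun i _ => ?_
      have := modByMonic_add_div (tlog p (g i ^ N - 1)) f
      linear_combination (-C (β i)) * this
    rw [h5, h6]
    linear_combination h4

end field

section padic

variable {p : ℕ} [hp : Fact p.Prime]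

theorem map_lc {m : ℕ} (hm : m + 1 < p) :
    PadicInt.toZMod (lc p m) = (-1) ^ m * (((m + 1 : ℕ) : ZMod p))⁻¹ := by
  have hu : IsUnit ((m + 1 : ℕ) : ℤ_[p]) := isUnit_natCast fun h => by
    have := Nat.le_of_dvd (Nat.succ_pos m) h
    omega
  have h1 := congrArg (PadicInt.toZMod (p := p)) (Ring.mul_inverse_cancel _ hu)
  rw [map_mul, map_natCast, map_one] at h1
  rw [lc, map_mul, map_pow, map_neg, map_one]
  congr 1
  exact (inv_eq_of_mul_eq_one_right h1).symm

theorem map_tlZ (y : ℤ_[p][X]) :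
    (tlZ y).map PadicInt.toZMod = tlog p (y.map PadicInt.toZMod) := by
  rw [tlZ, tlog, Polynomial.map_sum]
  refine Finset.sum_congr rfl fun m hm => ?_
  rw [Finset.mem_range] at hm
  rw [Polynomial.map_mul, Polynomial.map_pow, Polynomial.map_C, map_lc (by omega)]

variable {ι : Type*} [Fintype ι]

theorem pencil_hyp_padic {f₀ Q : ℤ_[p][X]} (hf : f₀.Monic) {n : ℕ} (hn : f₀.natDegree = n)
    (hQf : IsCoprime (Q.map PadicInt.toZMod) (f₀.map PadicInt.toZMod))
    (g : ι → ℤ_[p][X]) {N : ℕ} (hN : (N : ZMod p) ≠ 0)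
    (hy : ∀ i, f₀.map PadicInt.toZMod ∣ ((g i).map PadicInt.toZMod ^ N - 1) ^ (p - 1))
    (hg' : ∀ i, derivative ((g i).map PadicInt.toZMod) ≠ 0)
    (hgg : ∀ i l, i ≠ l →
      IsCoprime ((g i).map PadicInt.toZMod) ((g l).map PadicInt.toZMod))
    (hdeg : ∑ i, ((g i).map PadicInt.toZMod).natDegree < n)
    (α β : ι → ZMod p)
    (h1 : ((Matrix.of fun (j : Fin n) i =>
      (tlZ (g i ^ N - 1) %ₘ f₀).coeff j).map PadicInt.toZMod) *ᵥ α = 0)
    (h2 : ((Matrix.of fun (j : Fin n) i =>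
        ((Q * (tlZ (g i ^ N - 1) /ₘ f₀)) %ₘ f₀).coeff j).map PadicInt.toZMod) *ᵥ α =
      ((Matrix.of fun (j : Fin n) i =>
        (tlZ (g i ^ N - 1) %ₘ f₀).coeff j).map PadicInt.toZMod) *ᵥ β) : α = 0 := by
  have e1 : ((Matrix.of fun (j : Fin n) i =>
      (tlZ (g i ^ N - 1) %ₘ f₀).coeff j).map PadicInt.toZMod) =
      Matrix.of fun (j : Fin n) i =>
        (tlog p (((g i).map PadicInt.toZMod) ^ N - 1) %ₘ (f₀.map PadicInt.toZMod)).coeff j := by
    refine Matrix.ext fun j i => ?_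
    rw [Matrix.map_apply, Matrix.of_apply, Matrix.of_apply, ← coeff_map,
      map_modByMonic _ hf, map_tlZ, Polynomial.map_sub, Polynomial.map_pow, Polynomial.map_one]
  have e2 : ((Matrix.of fun (j : Fin n) i =>
      ((Q * (tlZ (g i ^ N - 1) /ₘ f₀)) %ₘ f₀).coeff j).map PadicInt.toZMod) =
      Matrix.of fun (j : Fin n) i =>
        (((Q.map PadicInt.toZMod) * (tlog p (((g i).map PadicInt.toZMod) ^ N - 1) /ₘ
          (f₀.map PadicInt.toZMod))) %ₘ (f₀.map PadicInt.toZMod)).coeff j := by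
    refine Matrix.ext fun j i => ?_
    rw [Matrix.map_apply, Matrix.of_apply, Matrix.of_apply, ← coeff_map,
      map_modByMonic _ hf, Polynomial.map_mul, map_divByMonic _ hf, map_tlZ, Polynomial.map_sub,
      Polynomial.map_pow, Polynomial.map_one]
  rw [e1] at h1 h2
  rw [e2] at h2
  exact pencil_hyp (p := p) (hf.map _) hQf ((hf.natDegree_map _).trans hn) _ hN hy hg' hgg hdeg α β h1 h2

end padic

end Pool.Agent.Helper31_Leo
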