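import Pool.Agent.Helper31_Leo.Order
import Pool.Agent.Helper65_Leo.Local

/-!
# Fields violating Leopoldt's conjecture and determinants
-/

set_option autoImplicit false

open Polynomial Filter Topology NumberField Pool.Agent.Helper85_Leo Pool.Agent.Helper65_Leo

namespace Pool.Agent.Helper31_Leo

variable {p : ℕ} [hp : Fact p.Prime] {k : Type} [NontriviallyNormedField k]
  [NormedAlgebra ℚ_[p] k]

variable (p k) in
/-- The embedding of the `p`-adic integers. -/
noncomputable def emb : ℤ_[p] →+* k := (algebraMap ℚ_[p] k).comp PadicInt.Coe.ringHom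

theorem norm_emb (x : ℤ_[p]) : ‖emb p k x‖ = ‖x‖ := by
  change ‖algebraMap ℚ_[p] k (x : ℚ_[p])‖ = ‖x‖
  rw [norm_algebraMap', PadicInt.norm_def]

theorem norm_eval₂_le [IsUltrametricDist k] (q : ℤ_[p][X]) {x : k} (hx : ‖x‖ ≤ 1) :
    ‖q.eval₂ (emb p k) x‖ ≤ 1 := by
  rw [eval₂_eq_sum_range]
  refine IsUltrametricDist.norm_sum_le_of_forall_le_of_nonneg zero_le_one fun i _ => ?_
  rw [norm_mul, norm_pow, norm_emb]
  exact mul_le_one₀ (PadicInt.norm_le_one _) (by positivity) (pow_le_one₀ (norm_nonneg _) hx)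

theorem eval₂_map_int (q : ℤ[X]) (x : k) :
    (q.map (Int.castRingHom ℤ_[p])).eval₂ (emb p k) x = q.eval₂ (Int.castRingHom k) x := by
  rw [eval₂_map]
  congr 1
  exact RingHom.ext_int _ _

/-- Units in the fields of the family. -/
theorem exists_field_units {P Q : ℤ[X]} (hP : P.Monic) (hdeg : Q.natDegree < P.natDegree)
    (hcop : IsCoprime P Q) (t : ℤ) {ι : Type} (g : ι → ℤ[X]) (hgQ : ∀ i, g i ∣ Q)
    (K : Type) [Field K] [NumberField K] (θ : K) (hθ : aeval θ (P - C t * Q) = 0) :
    ∃ (θ' : 𝓞 K) (η : ι → (𝓞 K)ˣ), (θ' : K) = θ ∧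
      ∀ i (σ : K →+* k), unitVal σ (η i) = (g i).eval₂ (Int.castRingHom k) (σ θ) := by
  have hθint : IsIntegral ℤ θ := ⟨P - C t * Q, monic_sub_mul hP hdeg t, hθ⟩
  let θ' : 𝓞 K := ⟨θ, hθint⟩
  have hev : ∀ q : ℤ[X], ((q.eval₂ (Int.castRingHom (𝓞 K)) θ' : 𝓞 K) : K) =
      q.eval₂ (Int.castRingHom K) θ := by
    intro q
    have := hom_eval₂ q (Int.castRingHom (𝓞 K)) (algebraMap (𝓞 K) K) θ'
    refine this.trans ?_
    congr 1
  have hθ'0 : (P - C t * Q).eval₂ (Int.castRingHom (𝓞 K)) θ' = 0 := by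
    apply RingOfIntegers.coe_injective
    change (((P - C t * Q).eval₂ (Int.castRingHom (𝓞 K)) θ' : 𝓞 K) : K) = ((0 : 𝓞 K) : K)
    rw [hev]
    exact hθ
  obtain ⟨η, hη⟩ := exists_units (Int.castRingHom (𝓞 K)) hcop t θ' hθ'0 g hgQ
  refine ⟨θ', η, rfl, fun i σ => ?_⟩
  change σ (((η i : 𝓞 K)) : K) = _
  rw [hη, hev]
  have h3 := hom_eval₂ (g i) (Int.castRingHom K) σ θ
  refine h3.trans ?_
  congr 1
  exact RingHom.ext_int _ _

section det

variable [CompleteSpace k] [IsUltrametricDist k] [CharZero k] [IsAlgClosed k]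

/-- Small values of `D c` force a small determinant of `D`, if `c ≠ 0`. -/
theorem tendsto_det_of_mulVec {ι : Type} [Fintype ι] [DecidableEq ι] (D : ℕ → Matrix ι ι ℤ_[p])
    (c : ι → k) (hc : c ≠ 0)
    (h : Tendsto (fun s => ((D s).map (emb p k)).mulVec c) atTop (𝓝 0)) :
    Tendsto (fun s => (D s).det) atTop (𝓝 0) := by
  obtain ⟨i, hi⟩ : ∃ i, c i ≠ 0 := by
    by_contra hcon
    push Not at hcon
    exact hc (funext hcon)
  rw [tendsto_zero_iff_norm_tendsto_zero]
  have h1 : ∀ s, ‖(D s).det‖ ≤ ‖c i‖⁻¹ * ∑ j, ‖((D s).map (emb p k)).mulVec c j‖ := by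
    intro s
    set M := (D s).map (emb p k) with hM
    have h2 : M.det = emb p k (D s).det := by
      have := RingHom.map_det (emb p k) (D s)
      rw [RingHom.mapMatrix_apply] at this
      exact this.symm
    have h3 : M.adjugate = (D s).adjugate.map (emb p k) := by
      have := RingHom.map_adjugate (emb p k) (D s)
      rw [RingHom.mapMatrix_apply, RingHom.mapMatrix_apply] at this
      exact this.symm
    have h4 : M.det * c i = ∑ j, M.adjugate i j * (M.mulVec c) j := by
      have h5 : M.adjugate.mulVec (M.mulVec c) = M.det • c := by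
        rw [Matrix.mulVec_mulVec, Matrix.adjugate_mul, Matrix.smul_mulVec, Matrix.one_mulVec]
      have h6 := congrFun h5 i
      rw [Pi.smul_apply, smul_eq_mul] at h6
      rw [← h6]; rfl
    have h5 : ‖(D s).det‖ * ‖c i‖ ≤ ∑ j, ‖(M.mulVec c) j‖ := by
      rw [← norm_emb (k := k) (D s).det, ← h2, ← norm_mul, h4]
      refine (norm_sum_le _ _).trans (Finset.sum_le_sum fun j _ => ?_)
      rw [norm_mul]
      refine mul_le_of_le_one_left (norm_nonneg _) ?_
      rw [h3, Matrix.map_apply, norm_emb]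
      exact PadicInt.norm_le_one _
    have h6 : 0 < ‖c i‖ := norm_pos_iff.2 hi
    rw [inv_mul_eq_div, le_div_iff₀ h6]
    exact h5
  have h2 : Tendsto (fun s => ‖c i‖⁻¹ * ∑ j, ‖((D s).map (emb p k)).mulVec c j‖) atTop (𝓝 0) := by
    have h3 : Tendsto (fun s => ∑ j, ‖((D s).map (emb p k)).mulVec c j‖) atTop
        (𝓝 (∑ j : ι, (0 : ℝ))) := by
      refine tendsto_finsetSum _ fun j _ => ?_
      have h4 := (tendsto_pi_nhds.1 h j).norm
      simpa using h4
    have h4 := h3.const_mul (‖c i‖⁻¹)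
    simpa using h4
  exact squeeze_zero (fun _ => norm_nonneg _) h1 h2

open Classical in
/-- At a parameter where Leopoldt's conjecture fails the determinants tend to `0`. -/
theorem tendsto_det {P Q : ℤ[X]} (hP : P.Monic) (hdeg : Q.natDegree < P.natDegree)
    (hcop : IsCoprime P Q) {ι : Type} [Fintype ι] (g : ι → ℤ[X]) (hgQ : ∀ i, g i ∣ Q)
    (t₀ v : ℤ) (f₀ : ℤ_[p][X]) (hf₀ : f₀ = (P - C t₀ * Q).map (Int.castRingHom ℤ_[p]))
    (N : ℕ) (hy : ∀ i, ∃ a b, ((g i).map (Int.castRingHom ℤ_[p]) ^ N - 1) ^ P.natDegree =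
      C (p : ℤ_[p]) * a + f₀ * b)
    (R : ℕ → ι → ℤ_[p][X][X]) (hR1 : ∀ s i, 2 ≤ s → (R s i).degree < P.natDegree)
    (hR2 : ∀ s i, 2 ≤ s → ∀ θ : k,
        f₀.eval₂ (emb p k) θ = emb p k (p * v) *
          (Q.map (Int.castRingHom ℤ_[p])).eval₂ (emb p k) θ →
        (((g i).map (Int.castRingHom ℤ_[p])).eval₂ (emb p k) θ) ^ (N * p ^ s) - 1 =
          (p : k) ^ s * (R s i).eval₂ ((emb p k).comp (evalRingHom (v : ℤ_[p]))) θ)
    (V : Matrix ι (Fin P.natDegree) ℤ_[p])
    (K : Type) [Field K] [NumberField K] (θ : K)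
    (hθ : aeval θ (P - C (t₀ + p * v) * Q) = 0)
    (hgen : IntermediateField.adjoin ℚ {θ} = ⊤) (hfr : Module.finrank ℚ K = P.natDegree)
    (hrank : Units.rank K ≤ Fintype.card ι) (hbad : ¬ LeopoldtAt K p) :
    Tendsto (fun s => (V.map C * Matrix.of fun (j : Fin P.natDegree) i =>
      (R s i).coeff j).det.eval (v : ℤ_[p])) atTop (𝓝 0) := by
  obtain ⟨θ', η, hθ', hη⟩ := exists_field_units (k := k) hP hdeg hcop (t₀ + p * v) g hgQ K θ hθ
  have hn0 : 0 < P.natDegree := by omega
  have hθnorm : ∀ σ : K →+* k, ‖σ θ‖ ≤ 1 := by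
    intro σ
    rw [← hθ']
    exact norm_embedding_le_one σ θ'
  -- the equation of the conjugates
  have hroot : ∀ σ : K →+* k, f₀.eval₂ (emb p k) (σ θ) = emb p k (p * v) *
      (Q.map (Int.castRingHom ℤ_[p])).eval₂ (emb p k) (σ θ) := by
    intro σ
    have h1 := congrArg σ hθ
    rw [map_zero, aeval_def, hom_eval₂] at h1
    have h2 : (σ.comp (algebraMap ℤ K)) = Int.castRingHom k := RingHom.ext_int _ _
    rw [h2] at h1
    rw [hf₀, eval₂_map_int, eval₂_map_int]
    have h3 : emb p k (p * v) = ((p * v : ℤ) : k) := by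
      rw [map_mul, map_natCast, map_intCast]; push_cast; ring
    rw [h3]
    rw [eval₂_sub, eval₂_mul, eval₂_C] at h1 ⊢
    rw [eq_intCast] at h1 ⊢
    push_cast at h1 ⊢
    linear_combination h1
  have hunit : ∀ i (σ : K →+* k), unitVal σ (η i) =
      ((g i).map (Int.castRingHom ℤ_[p])).eval₂ (emb p k) (σ θ) := by
    intro i σ
    rw [eval₂_map_int, hη]
  -- logarithms
  have hlog : ∀ (σ : K →+* k) i, ∃ l, HasLog p (unitVal σ (η i) ^ N) l := by
    intro σ i
    obtain ⟨a, b, hab⟩ := hy i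
    have h1 := congrArg (fun q => q.eval₂ (emb p k) (σ θ)) hab
    simp only [eval₂_pow, eval₂_sub, eval₂_add, eval₂_mul, eval₂_C, eval₂_one] at h1
    rw [← hunit, hroot σ, map_mul, map_natCast] at h1
    have h2 : (unitVal σ (η i) ^ N - 1) ^ P.natDegree = (p : k) * (a + C (v : ℤ_[p]) *
        Q.map (Int.castRingHom ℤ_[p]) * b).eval₂ (emb p k) (σ θ) := by
      rw [h1]
      simp only [eval₂_add, eval₂_mul, eval₂_C]
      ring
    have h3 : ‖(unitVal σ (η i) ^ N - 1) ^ P.natDegree‖ < 1 := by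
      rw [h2, norm_mul, norm_p_eq p]
      have h4 := norm_eval₂_le (p := p) (a + C (v : ℤ_[p]) *
        Q.map (Int.castRingHom ℤ_[p]) * b) (hθnorm σ)
      have h5 : (1 : ℝ) < p := by exact_mod_cast hp.out.one_lt
      calc (p : ℝ)⁻¹ * _ ≤ (p : ℝ)⁻¹ * 1 := mul_le_mul_of_nonneg_left h4 (by positivity)
        _ < 1 := by rw [mul_one]; exact inv_lt_one_of_one_lt₀ h5
    have h4 : ‖1 - unitVal σ (η i) ^ N‖ < 1 := by
      rw [norm_sub_rev]
      rw [norm_pow] at h3
      exact (pow_lt_one_iff_of_nonneg (norm_nonneg _) hn0.ne').1 h3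
    exact ⟨-∑' m : ℕ, (1 - unitVal σ (η i) ^ N) ^ (m + 1) / ((m + 1 : ℕ) : k), by
      have := hasLog_one_sub (p := p) h4
      rwa [sub_sub_cancel] at this⟩
  choose l hl using hlog
  obtain ⟨c, hc1, hc2⟩ : ∃ c : ι → k, (∀ σ : K →+* k, ∑ i, c i * l σ i = 0) ∧ c ≠ 0 := by
    by_contra hcon
    push Not at hcon
    exact hbad (leopoldtAt_of_independent_logs p η N (fun σ : K →+* k => σ) l hl hcon hrank)
  -- the values of the polynomials `R`
  have hval : ∀ (σ : K →+* k) i, Tendsto (fun s =>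
      (R s i).eval₂ ((emb p k).comp (evalRingHom (v : ℤ_[p]))) (σ θ)) atTop (𝓝 (l σ i)) := by
    intro σ i
    have h1 := hl σ i
    unfold HasLog at h1
    refine h1.congr' ?_
    filter_upwards [eventually_ge_atTop 2] with s hs
    have h2 := hR2 s i hs (σ θ) (hroot σ)
    have h3 : (p : k) ^ s ≠ 0 := pow_ne_zero _ (p_ne_zero p)
    rw [← hunit] at h2
    rw [← pow_mul, h2, mul_div_cancel_left₀ _ h3]
  -- enumeration of the embeddings
  have hcard : Fintype.card (Fin P.natDegree) = Fintype.card (K →+* k) := by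
    rw [Fintype.card_fin, NumberField.Embeddings.card, hfr]
  let e : Fin P.natDegree ≃ (K →+* k) := Fintype.equivOfCardEq hcard
  let w : Fin P.natDegree → k := fun j => e j θ
  have hw : Function.Injective w := by
    intro i j h
    apply e.injective
    have h1 : (e i) θ = (e j) θ := h
    have h3 : ∀ x ∈ IntermediateField.adjoin ℚ {θ}, (e i) x = (e j) x := by
      intro x hx
      induction hx using IntermediateField.adjoin_induction with
      | mem x hx => rw [Set.mem_singleton_iff.1 hx]; exact h1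
      | algebraMap a => simp
      | add x y _ _ h4 h5 => rw [map_add, map_add, h4, h5]
      | inv x _ h4 => rw [map_inv₀, map_inv₀, h4]
      | mul x y _ _ h4 h5 => rw [map_mul, map_mul, h4, h5]
    exact RingHom.ext fun x => h3 x (by rw [hgen]; trivial)
  let M : ℕ → Matrix (Fin P.natDegree) ι ℤ_[p] := fun s => Matrix.of fun j i =>
    ((R s i).coeff j).eval (v : ℤ_[p])
  have hMc : Tendsto (fun s => ((M s).map (emb p k)).mulVec c) atTop (𝓝 0) := by
    have h1 : Tendsto (fun s => (Matrix.vandermonde w).mulVec (((M s).map (emb p k)).mulVec c))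
        atTop (𝓝 0) := by
      rw [tendsto_pi_nhds]
      intro j
      have h2 : Tendsto (fun s => ∑ i, c i *
          (R s i).eval₂ ((emb p k).comp (evalRingHom (v : ℤ_[p]))) (w j)) atTop (𝓝 0) := by
        rw [← hc1 (e j)]
        exact tendsto_finsetSum _ fun i _ => (hval (e j) i).const_mul (c i)
      refine h2.congr' ?_
      filter_upwards [eventually_ge_atTop 2] with s hs
      have h3 : ∀ i, (R s i).eval₂ ((emb p k).comp (evalRingHom (v : ℤ_[p]))) (w j) =
          ∑ a : Fin P.natDegree, emb p k (M s a i) * w j ^ (a : ℕ) := by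
        intro i
        have h4 : (R s i).natDegree < P.natDegree := by
          rcases eq_or_ne (R s i) 0 with h0 | h0
          · rw [h0]; exact hn0
          · exact (natDegree_lt_iff_degree_lt h0).2 (hR1 s i hs)
        rw [eval₂_eq_sum_range' _ h4, ← Fin.sum_univ_eq_sum_range (fun a => (((emb p k).comp
          (evalRingHom (v : ℤ_[p]))) ((R s i).coeff a)) * w j ^ a) P.natDegree]
        rfl
      simp only [Matrix.mulVec, dotProduct, Matrix.vandermonde_apply, Matrix.map_apply]
      simp only [h3, Finset.mul_sum]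
      rw [Finset.sum_comm]
      refine Finset.sum_congr rfl fun a _ => Finset.sum_congr rfl fun i _ => ?_
      ring
    have hdet : IsUnit (Matrix.vandermonde w).det := by
      rw [isUnit_iff_ne_zero]
      exact Matrix.det_vandermonde_ne_zero_iff.2 hw
    have h2 : ∀ s, ((M s).map (emb p k)).mulVec c = ((Matrix.vandermonde w)⁻¹).mulVec
        ((Matrix.vandermonde w).mulVec (((M s).map (emb p k)).mulVec c)) := by
      intro s
      rw [Matrix.mulVec_mulVec, Matrix.nonsing_inv_mul _ hdet, Matrix.one_mulVec]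
    refine (tendsto_congr h2).2 ?_
    have h3 : Continuous fun x : Fin P.natDegree → k => ((Matrix.vandermonde w)⁻¹).mulVec x :=
      Continuous.matrix_mulVec continuous_const continuous_id
    have h4 := (h3.tendsto 0).comp h1
    rw [Matrix.mulVec_zero] at h4
    exact h4
  have hdet2 : ∀ s, (V.map C * Matrix.of fun (j : Fin P.natDegree) i =>
      (R s i).coeff j).det.eval (v : ℤ_[p]) = (V * M s).det := by
    intro s
    have h1 := RingHom.map_det (evalRingHom (v : ℤ_[p])) (V.map C * Matrix.of fun (j : Fin P.natDegree) i =>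
      (R s i).coeff j)
    rw [coe_evalRingHom] at h1
    rw [h1, RingHom.mapMatrix_apply, Matrix.map_mul]
    congr 2
    refine Matrix.ext fun i j => ?_
    simp
  refine (tendsto_congr hdet2).2 ?_
  refine tendsto_det_of_mulVec (k := k) _ c hc2 ?_
  have h1 : ∀ s, ((V * M s).map (emb p k)).mulVec c =
      (V.map (emb p k)).mulVec (((M s).map (emb p k)).mulVec c) := by
    intro s
    rw [Matrix.mulVec_mulVec, Matrix.map_mul]
  refine (tendsto_congr h1).2 ?_
  have h3 : Continuous fun x : Fin P.natDegree → k => (V.map (emb p k)).mulVec x :=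
    Continuous.matrix_mulVec continuous_const continuous_id
  have h4 := (h3.tendsto 0).comp hMc
  rw [Matrix.mulVec_zero] at h4
  exact h4

end det

end Pool.Agent.Helper31_Leo
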