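import Mathlib

/-!
# Truncated logarithms of polynomials over a field of characteristic `p`
-/

set_option autoImplicit false

open Polynomial

namespace Pool.Agent.Helper31_Leo

section general

variable {k : Type*} [Field k]

/-- Divisibility tested on powers of primes. -/
theorem dvd_of_prime_pow {f h : k[X]} (hf : f ≠ 0)
    (H : ∀ π : k[X], Prime π → ∀ m : ℕ, 0 < m → π ^ m ∣ f → π ^ m ∣ h) : f ∣ h := by
  rw [UniqueFactorizationMonoid.dvd_iff_emultiplicity_le hf]
  intro π hπ
  rw [emultiplicity_le_emultiplicity_iff]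
  intro m hm
  rcases Nat.eq_zero_or_pos m with rfl | h0
  · simp
  · exact H π hπ m h0 hm

/-- If every prime factor of `f` divides `μ`, then `f` divides `f' μ`. -/
theorem dvd_derivative_mul {f μ : k[X]} (hf : f ≠ 0) (H : ∀ π : k[X], Prime π → π ∣ f → π ∣ μ) :
    f ∣ derivative f * μ := by
  refine dvd_of_prime_pow hf fun π hπ m h0 hm => ?_
  obtain ⟨g, rfl⟩ := hm
  obtain ⟨m, rfl⟩ : ∃ l, m = l + 1 := ⟨m - 1, by omega⟩
  have h1 : π ∣ μ := H π hπ ((dvd_pow_self π (Nat.succ_ne_zero m)).trans (dvd_mul_right _ _))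
  have h2 : π ^ m ∣ derivative (π ^ (m + 1) * g) := by
    rw [derivative_mul, derivative_pow_succ]
    refine dvd_add ?_ ?_
    · exact Dvd.dvd.mul_right (Dvd.dvd.mul_right (dvd_mul_left _ _) _) _
    · exact (pow_dvd_pow π (Nat.le_succ m)).mul_right _
  rw [pow_succ]
  exact mul_dvd_mul h2 h1

/-- If every prime factor of `f` divides `y`, and `f` has degree at most `n`, then `f` divides
`y ^ n`. -/
theorem dvd_pow_of_primes {f y : k[X]} (hf : f ≠ 0) {n : ℕ} (hn : f.natDegree ≤ n)
    (H : ∀ π : k[X], Prime π → π ∣ f → π ∣ y) : f ∣ y ^ n := by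
  refine dvd_of_prime_pow hf fun π hπ m h0 hm => ?_
  have h1 : π ∣ y := H π hπ ((dvd_pow_self π h0.ne').trans hm)
  have h2 : m ≤ f.natDegree := by
    have h3 := natDegree_le_of_dvd hm hf
    rw [natDegree_pow] at h3
    have h4 : 0 < π.natDegree := hπ.irreducible.natDegree_pos
    calc m ≤ m * π.natDegree := Nat.le_mul_of_pos_right m h4
      _ ≤ f.natDegree := h3
  exact (pow_dvd_pow_of_dvd h1 m).trans (pow_dvd_pow y (h2.trans hn))

end general

section log

variable {k : Type*} [Field k] (p : ℕ)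

/-- The truncated logarithm of `1 + y`. -/
noncomputable def tlog (y : k[X]) : k[X] :=
  ∑ m ∈ Finset.range (p - 1), C ((-1) ^ m * ((m + 1 : ℕ) : k)⁻¹) * y ^ (m + 1)

theorem dvd_tlog (y : k[X]) : y ∣ tlog p y := by
  refine Finset.dvd_sum fun m _ => ?_
  exact (dvd_pow_self y (Nat.succ_ne_zero m)).mul_left _

theorem derivative_tlog [CharP k p] (y : k[X]) :
    derivative (tlog p y) = derivative y * ∑ m ∈ Finset.range (p - 1), (-y) ^ m := by
  rw [tlog, derivative_sum, Finset.mul_sum]
  refine Finset.sum_congr rfl fun m hm => ?_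
  rw [Finset.mem_range] at hm
  have h1 : ((m + 1 : ℕ) : k) ≠ 0 := by
    intro h
    rw [CharP.cast_eq_zero_iff k p] at h
    have := Nat.le_of_dvd (Nat.succ_pos m) h
    omega
  have h2 : ((m : k) + 1) ≠ 0 := by exact_mod_cast h1
  rw [derivative_C_mul, derivative_pow_succ, neg_pow y, C_mul]
  have h3 : (C (((m + 1 : ℕ) : k)⁻¹) * C ((m : k) + 1) : k[X]) = 1 := by
    rw [← C_mul, Nat.cast_succ, inv_mul_cancel₀ h2, C_1]
  calc C ((-1 : k) ^ m) * C (((m + 1 : ℕ) : k)⁻¹) * (C ((m : k) + 1) * y ^ m * derivative y)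
      = (C (((m + 1 : ℕ) : k)⁻¹) * C ((m : k) + 1)) * C ((-1 : k) ^ m) * y ^ m * derivative y := by
        ring
    _ = derivative y * ((-1) ^ m * y ^ m) := by
        rw [h3, C_pow, C_neg, C_1]; ring

theorem mul_derivative_tlog [CharP k p] (g : k[X]) {N : ℕ} (hN : 0 < N) :
    g * derivative (tlog p (g ^ N - 1)) =
      (N : k[X]) * derivative g * (1 - (-(g ^ N - 1)) ^ (p - 1)) := by
  obtain ⟨N, rfl⟩ : ∃ l, N = l + 1 := ⟨N - 1, by omega⟩
  rw [derivative_tlog, derivative_sub, derivative_one, sub_zero, derivative_pow_succ]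
  have h1 := mul_neg_geom_sum (-(g ^ (N + 1) - 1)) (p - 1)
  rw [← h1]
  have h2 : C ((N : k) + 1) = ((N + 1 : ℕ) : k[X]) := by simp
  rw [h2]
  ring

end log

section key

variable {k : Type*} [Field k] {p : ℕ} [CharP k p] {ι : Type*} [Fintype ι]

open Classical in
/-- The main algebraic fact modulo `p`. -/
theorem modp_key {f Q : k[X]} (hf : f ≠ 0) (hQf : IsCoprime Q f)
    (g : ι → k[X]) {N : ℕ} (hN : (N : k) ≠ 0)
    (hy : ∀ i, f ∣ (g i ^ N - 1) ^ (p - 1))
    (hg' : ∀ i, derivative (g i) ≠ 0) (hgg : ∀ i l, i ≠ l → IsCoprime (g i) (g l))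
    (hdeg : ∑ i, (g i).natDegree < f.natDegree)
    (α β : ι → k) (μ : k[X])
    (h1 : ∑ i, C (α i) * tlog p (g i ^ N - 1) = f * μ)
    (h2 : f ∣ Q * μ - ∑ i, C (β i) * tlog p (g i ^ N - 1)) : ∀ i, α i = 0 := by
  have hN0 : 0 < N := by
    rcases Nat.eq_zero_or_pos N with rfl | h
    · exact absurd Nat.cast_zero hN
    · exact h
  -- prime factors of `f` divide `μ`
  have h3 : ∀ π : k[X], Prime π → π ∣ f → π ∣ μ := by
    intro π hπ hπf
    have h4 : ∀ i, π ∣ tlog p (g i ^ N - 1) := fun i =>
      (hπ.dvd_of_dvd_pow (hπf.trans (hy i))).trans (dvd_tlog p _)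
    have h5 : π ∣ ∑ i, C (β i) * tlog p (g i ^ N - 1) :=
      Finset.dvd_sum fun i _ => (h4 i).mul_left _
    have h6 : π ∣ Q * μ := by
      have := dvd_add (hπf.trans h2) h5
      rwa [sub_add_cancel] at this
    refine (hπ.dvd_or_dvd h6).resolve_left fun h => ?_
    exact hπ.not_unit (hQf.isUnit_of_dvd' h hπf)
  have h4 : f ∣ ∑ i, C (α i) * derivative (tlog p (g i ^ N - 1)) := by
    have h5 := congrArg derivative h1
    rw [derivative_sum, derivative_mul] at h5
    simp only [derivative_C_mul] at h5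
    rw [h5]
    exact dvd_add (dvd_derivative_mul hf h3) (dvd_mul_right _ _)
  -- multiply with all `g`
  have h5 : f ∣ ∑ i, C (α i) * ((N : k[X]) * derivative (g i)) *
      ∏ l ∈ Finset.univ.erase i, g l := by
    have h6 : ∀ i, f ∣ C (α i) * ((N : k[X]) * derivative (g i)) *
        (∏ l ∈ Finset.univ.erase i, g l) -
        (∏ l, g l) * (C (α i) * derivative (tlog p (g i ^ N - 1))) := by
      intro i
      rw [← Finset.mul_prod_erase Finset.univ g (Finset.mem_univ i)]
      have h7 := mul_derivative_tlog p (g i) (k := k) hN0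
      have h8 : g i * (∏ l ∈ Finset.univ.erase i, g l) *
          (C (α i) * derivative (tlog p (g i ^ N - 1))) =
          C (α i) * (g i * derivative (tlog p (g i ^ N - 1))) *
            (∏ l ∈ Finset.univ.erase i, g l) := by ring
      rw [h8, h7]
      have h9 : C (α i) * ((N : k[X]) * derivative (g i)) * (∏ l ∈ Finset.univ.erase i, g l) -
          C (α i) * ((N : k[X]) * derivative (g i) * (1 - (-(g i ^ N - 1)) ^ (p - 1))) *
            (∏ l ∈ Finset.univ.erase i, g l) =
          (g i ^ N - 1) ^ (p - 1) * ((-1) ^ (p - 1) * (C (α i) * ((N : k[X]) * derivative (g i)) *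
            (∏ l ∈ Finset.univ.erase i, g l))) := by
        rw [neg_pow (g i ^ N - 1)]
        ring
      rw [h9]
      exact (hy i).mul_right _
    have h7 := Finset.dvd_sum fun i (_ : i ∈ Finset.univ) => h6 i
    rw [Finset.sum_sub_distrib, ← Finset.mul_sum] at h7
    have h8 := dvd_add h7 (h4.mul_left (∏ l, g l))
    rwa [sub_add_cancel] at h8
  set S : k[X] := ∑ i, C (α i) * ((N : k[X]) * derivative (g i)) *
      ∏ l ∈ Finset.univ.erase i, g l with hS
  have hgpos : ∀ i, 0 < (g i).natDegree := fun i => by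
    by_contra h
    have h6 : (g i).natDegree = 0 := by omega
    rw [natDegree_eq_zero] at h6
    obtain ⟨c, hc⟩ := h6
    exact hg' i (by rw [← hc, derivative_C])
  have hS0 : S = 0 := by
    by_contra hne
    have h6 : S.natDegree < f.natDegree := by
      rcases isEmpty_or_nonempty ι with hι | hι
      · exact absurd (by simp [hS]) hne
      refine lt_of_le_of_lt ?_ hdeg
      rw [hS]
      refine natDegree_sum_le_of_forall_le _ _ fun i _ => ?_
      refine natDegree_mul_le.trans ?_
      rw [← Finset.add_sum_erase Finset.univ (fun i => (g i).natDegree) (Finset.mem_univ i)]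
      refine add_le_add ?_ (natDegree_prod_le _ _)
      refine natDegree_mul_le.trans ?_
      rw [natDegree_C, zero_add]
      refine natDegree_mul_le.trans ?_
      rw [natDegree_natCast, zero_add]
      exact (natDegree_derivative_le _).trans (Nat.sub_le _ _)
    exact absurd (natDegree_le_of_dvd h5 hne) (by omega)
  intro i
  have h6 : g i ∣ C (α i) * ((N : k[X]) * derivative (g i)) *
      ∏ l ∈ Finset.univ.erase i, g l := by
    have h7 := Finset.add_sum_erase Finset.univ (fun i => C (α i) * ((N : k[X]) *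
      derivative (g i)) * ∏ l ∈ Finset.univ.erase i, g l) (Finset.mem_univ i)
    rw [← hS, hS0] at h7
    have h8 : g i ∣ ∑ j ∈ Finset.univ.erase i, C (α j) * ((N : k[X]) *
        derivative (g j)) * ∏ l ∈ Finset.univ.erase j, g l := by
      refine Finset.dvd_sum fun j hj => ?_
      refine Dvd.dvd.mul_left (Finset.dvd_prod_of_mem g ?_) _
      rw [Finset.mem_erase] at hj ⊢
      exact ⟨hj.1.symm, Finset.mem_univ _⟩
    have h9 := (dvd_add_left h8).1 (h7 ▸ dvd_zero (g i))
    exact h9
  have h7 : IsCoprime (g i) (∏ l ∈ Finset.univ.erase i, g l) := by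
    refine IsCoprime.prod_right fun l hl => ?_
    rw [Finset.mem_erase] at hl
    exact hgg i l hl.1.symm
  have h8 : g i ∣ C (α i) * ((N : k[X]) * derivative (g i)) := h7.dvd_of_dvd_mul_right h6
  by_contra hα
  have h9 : C (α i) * ((N : k[X]) * derivative (g i)) = C (α i * N) * derivative (g i) := by
    rw [C_mul]; simp [mul_assoc]
  rw [h9] at h8
  have h10 : C (α i * (N : k)) * derivative (g i) ≠ 0 :=
    mul_ne_zero (C_ne_zero.2 (mul_ne_zero hα hN)) (hg' i)
  have h11 := natDegree_le_of_dvd h8 h10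
  rw [natDegree_C_mul (mul_ne_zero hα hN)] at h11
  have h12 := natDegree_derivative_lt (hgpos i).ne'
  omega

end key

end Pool.Agent.Helper31_Leo
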