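import Pool.Agent.Helper31_Leo.Hyp

/-!
# Exponents of unit groups
-/

set_option autoImplicit false

open Polynomial

namespace Pool.Agent.Helper31_Leo

/-- The exponent: a number divisible by `p^j - 1` for `1 ≤ j ≤ n`, prime to `p`. -/
def NN (p n : ℕ) : ℕ := ∏ j ∈ Finset.range n, (p ^ (j + 1) - 1)

variable {p : ℕ} [hp : Fact p.Prime]

theorem NN_pos (n : ℕ) : 0 < NN p n := by
  refine Finset.prod_pos fun j _ => ?_
  have : 1 < p ^ (j + 1) := Nat.one_lt_pow (Nat.succ_ne_zero j) hp.out.one_lt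
  omega

theorem NN_ne_zero (n : ℕ) : (NN p n : ZMod p) ≠ 0 := by
  rw [NN, Nat.cast_prod]
  refine Finset.prod_ne_zero_iff.2 fun j _ => ?_
  have h1 : 1 ≤ p ^ (j + 1) := Nat.one_le_pow _ _ hp.out.pos
  rw [Nat.cast_sub h1, Nat.cast_pow, ZMod.natCast_self, Nat.cast_one,
    zero_pow (Nat.succ_ne_zero j), zero_sub]
  exact neg_ne_zero.2 one_ne_zero

theorem prime_dvd_pow_NN {n : ℕ} {π g : (ZMod p)[X]} (hπ : Prime π) (hdeg : π.natDegree ≤ n)
    (hg : ¬ π ∣ g) : π ∣ g ^ NN p n - 1 := by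
  have : Fact (Irreducible π) := ⟨hπ.irreducible⟩
  have h0 : 0 < π.natDegree := hπ.irreducible.natDegree_pos
  have hfin : Module.Finite (ZMod p) (AdjoinRoot π) :=
    (AdjoinRoot.powerBasis hπ.ne_zero).finite
  have : Finite (AdjoinRoot π) := Module.finite_of_finite (ZMod p)
  let _ := Fintype.ofFinite (AdjoinRoot π)
  have hcard : Fintype.card (AdjoinRoot π) = p ^ π.natDegree := by
    rw [Module.card_eq_pow_finrank (K := ZMod p), ZMod.card,
      (AdjoinRoot.powerBasis hπ.ne_zero).finrank, AdjoinRoot.powerBasis_dim]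
  have h1 : AdjoinRoot.mk π g ≠ 0 := by
    rw [Ne, AdjoinRoot.mk_eq_zero]; exact hg
  have h2 := FiniteField.pow_card_sub_one_eq_one _ h1
  rw [hcard] at h2
  have h3 : p ^ π.natDegree - 1 ∣ NN p n := by
    obtain ⟨j, hj⟩ : ∃ j, π.natDegree = j + 1 := ⟨π.natDegree - 1, by omega⟩
    rw [hj]
    exact Finset.dvd_prod_of_mem _ (Finset.mem_range.2 (by omega))
  obtain ⟨r, hr⟩ := h3
  rw [← AdjoinRoot.mk_eq_zero, map_sub, map_pow, map_one, hr, pow_mul, h2, one_pow, sub_self]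

theorem dvd_pow_NN {n m : ℕ} {f g : (ZMod p)[X]} (hf : f ≠ 0) (hdeg : f.natDegree ≤ n)
    (hnm : f.natDegree ≤ m) (hg : IsCoprime g f) : f ∣ (g ^ NN p n - 1) ^ m := by
  refine dvd_pow_of_primes hf hnm fun π hπ hπf => ?_
  refine prime_dvd_pow_NN hπ ((natDegree_le_of_dvd hπf hf).trans hdeg) fun h => ?_
  exact hπ.not_unit (hg.isUnit_of_dvd' h hπf)

/-- Lifting of divisibility. -/
theorem exists_lift_dvd {f h : ℤ_[p][X]}
    (H : f.map PadicInt.toZMod ∣ h.map PadicInt.toZMod) :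
    ∃ a b, h = C (p : ℤ_[p]) * a + f * b := by
  obtain ⟨c, hc⟩ := H
  obtain ⟨b, rfl⟩ := Polynomial.map_surjective _ (toZMod_surjective (p := p)) c
  have h1 : C (p : ℤ_[p]) ∣ h - f * b := by
    rw [C_dvd_iff_dvd_coeff]
    intro i
    have h2 : PadicInt.toZMod ((h - f * b).coeff i) = 0 := by
      rw [← coeff_map, Polynomial.map_sub, hc, Polynomial.map_mul, sub_self, coeff_zero]
    obtain ⟨y, hy⟩ := toZMod_eq_zero.1 h2
    exact ⟨y, hy⟩
  obtain ⟨a, ha⟩ := h1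
  exact ⟨a, b, by linear_combination ha⟩

end Pool.Agent.Helper31_Leo
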