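import Mathlib

/-!
# An adapted basis for a pair of matrices over a field
-/

set_option autoImplicit false

open Matrix

namespace Pool.Agent.Helper31_Leo

variable {k : Type*} [Field k] {κ ι : Type*} [Fintype κ] [Fintype ι] [DecidableEq ι]

open Classical in
/-- If `B` is injective on the kernel of `A` modulo the image of `A`, there is a basis for which
`A`, on a part of the basis, and `B`, on the rest, have independent values, the rest lying in the
kernel of `A`. -/
theorem pencil_field (A B : Matrix κ ι k)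
    (H : ∀ α β : ι → k, A *ᵥ α = 0 → B *ᵥ α = A *ᵥ β → α = 0) :
    ∃ (S : ι → Prop) (U : Matrix ι ι k) (V : Matrix ι κ k), IsUnit U.det ∧
      (∀ i, S i → ∀ j, (A * U) j i = 0) ∧
      (∀ i, S i → ∀ j, (V * (B * U)) j i = (1 : Matrix ι ι k) j i) ∧
      ∀ i, ¬ S i → ∀ j, (V * (A * U)) j i = (1 : Matrix ι ι k) j i := by
  set N : Submodule k (ι → k) := LinearMap.ker A.mulVecLin with hN
  obtain ⟨N', hN'⟩ := Submodule.exists_isCompl N
  let b₀ := Module.finBasis k N
  let b₁ := Module.finBasis k N'
  let b := (b₀.prod b₁).map (N.prodEquivOfIsCompl N' hN')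
  have hcard : Fintype.card (Fin (Module.finrank k N) ⊕ Fin (Module.finrank k N')) =
      Fintype.card ι := by
    have h1 := Module.finrank_eq_card_basis b
    rw [← h1, Module.finrank_fintype_fun_eq_card]
  let e := Fintype.equivOfCardEq hcard
  let b' := b.reindex e
  let S : ι → Prop := fun i => ∃ a, e (Sum.inl a) = i
  have hS1 : ∀ i, S i → b' i ∈ N := by
    rintro i ⟨a, rfl⟩
    have h1 : b' (e (Sum.inl a)) = (b₀ a : ι → k) := by
      simp [b', b]
    rw [h1]
    exact (b₀ a).2
  have hS2 : ∀ i, ¬ S i → b' i ∈ N' := by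
    intro i hi
    obtain ⟨s, rfl⟩ := e.surjective i
    cases s with
    | inl a => exact absurd ⟨a, rfl⟩ hi
    | inr a =>
      have h1 : b' (e (Sum.inr a)) = (b₁ a : ι → k) := by
        simp [b', b]
      rw [h1]
      exact (b₁ a).2
  let U : Matrix ι ι k := Matrix.of fun j i => b' i j
  have hU : ∀ c : ι → k, U *ᵥ c = ∑ i, c i • b' i := by
    intro c
    funext j
    simp [U, Matrix.mulVec, dotProduct, mul_comm]
  have hUinj : ∀ c : ι → k, U *ᵥ c = 0 → c = 0 := by
    intro c hc
    rw [hU] at hc
    funext i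
    exact Fintype.linearIndependent_iff.1 b'.linearIndependent c hc i
  have hUdet : IsUnit U.det := by
    rw [isUnit_iff_ne_zero]
    intro h0
    obtain ⟨c, hc1, hc2⟩ := Matrix.exists_mulVec_eq_zero_iff.2 h0
    exact hc1 (hUinj c hc2)
  have hcol : ∀ (M : Matrix κ ι k) i j, (M * U) j i = (M *ᵥ b' i) j := by
    intro M i j
    rfl
  let W : Matrix κ ι k := Matrix.of fun j i => if S i then (B * U) j i else (A * U) j i
  have hW : ∀ c : ι → k, W *ᵥ c = 0 → c = 0 := by
    intro c hc
    let c₁ : ι → k := fun i => if S i then c i else 0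
    let c₂ : ι → k := fun i => if S i then 0 else c i
    have h1 : W *ᵥ c = B *ᵥ (U *ᵥ c₁) + A *ᵥ (U *ᵥ c₂) := by
      funext j
      rw [Matrix.mulVec_mulVec, Matrix.mulVec_mulVec]
      simp only [Matrix.mulVec, dotProduct, Pi.add_apply, W, Matrix.of_apply, c₁, c₂]
      rw [← Finset.sum_add_distrib]
      refine Finset.sum_congr rfl fun i _ => ?_
      by_cases h : S i <;> simp [h]
    have h2 : A *ᵥ (U *ᵥ c₁) = 0 := by
      have h3 : U *ᵥ c₁ ∈ N := by
        rw [hU]
        refine Submodule.sum_mem _ fun i _ => ?_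
        by_cases h : S i
        · exact Submodule.smul_mem _ _ (hS1 i h)
        · simp [c₁, h]
      exact LinearMap.mem_ker.1 h3
    have h3 : U *ᵥ c₁ = 0 := by
      refine H _ (-(U *ᵥ c₂)) h2 ?_
      rw [hc] at h1
      rw [Matrix.mulVec_neg]
      exact eq_neg_of_add_eq_zero_left h1.symm
    have h4 := hUinj _ h3
    have h5 : U *ᵥ c₂ = 0 := by
      have h6 : U *ᵥ c₂ ∈ N := by
        rw [hN, LinearMap.mem_ker]
        rw [hc, h3, Matrix.mulVec_zero, zero_add] at h1
        exact h1.symm
      have h7 : U *ᵥ c₂ ∈ N' := by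
        rw [hU]
        refine Submodule.sum_mem _ fun i _ => ?_
        by_cases h : S i
        · simp [c₂, h]
        · exact Submodule.smul_mem _ _ (hS2 i h)
      have h8 := Submodule.disjoint_def.1 hN'.disjoint _ h6 h7
      exact h8
    have h6 := hUinj _ h5
    funext i
    by_cases h : S i
    · have := congrFun h4 i
      simpa [c₁, h] using this
    · have := congrFun h6 i
      simpa [c₂, h] using this
  obtain ⟨L, hL⟩ := LinearMap.exists_leftInverse_of_injective W.mulVecLin
    (LinearMap.ker_eq_bot'.2 fun c hc => hW c hc)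
  let V : Matrix ι κ k := LinearMap.toMatrix' L
  have hVW : V * W = 1 := by
    have h1 : Matrix.toLin' (V * W) = Matrix.toLin' 1 := by
      rw [Matrix.toLin'_mul, Matrix.toLin'_one]
      have h2 : Matrix.toLin' V = L := Matrix.toLin'_toMatrix' L
      rw [h2]
      exact hL
    exact Matrix.toLin'.injective h1
  refine ⟨S, U, V, hUdet, fun i hi j => ?_, fun i hi j => ?_, fun i hi j => ?_⟩
  · rw [hcol]
    exact congrFun (LinearMap.mem_ker.1 (hS1 i hi)) j
  · rw [← hVW]
    simp only [Matrix.mul_apply, W, Matrix.of_apply, hi, if_true]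
  · rw [← hVW]
    simp only [Matrix.mul_apply, W, Matrix.of_apply, hi, if_false]

end Pool.Agent.Helper31_Leo
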