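import Pool.Agent.Helper31_Leo.PencilField

/-!
# Determinants of matrices `M₀ + p v M₁ + p² E(v)` over `ℤ_[p][v]`
-/

set_option autoImplicit false

open Matrix Polynomial

namespace Pool.Agent.Helper31_Leo

variable {p : ℕ} [hp : Fact p.Prime]

theorem toZMod_surjective : Function.Surjective (PadicInt.toZMod : ℤ_[p] →+* ZMod p) :=
  ZMod.ringHom_surjective _

theorem toZMod_eq_zero {x : ℤ_[p]} : PadicInt.toZMod x = 0 ↔ ∃ y, x = (p : ℤ_[p]) * y := by
  rw [← RingHom.mem_ker, PadicInt.ker_toZMod, PadicInt.maximalIdeal_eq_span_p,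
    Ideal.mem_span_singleton]
  rfl

theorem isUnit_of_toZMod {x : ℤ_[p]} (h : PadicInt.toZMod x ≠ 0) : IsUnit x := by
  by_contra hx
  apply h
  rw [← RingHom.mem_ker, PadicInt.ker_toZMod]
  exact (IsLocalRing.mem_maximalIdeal x).2 hx

theorem hmapC {a b : Type*} (N : Matrix a b ℤ_[p]) :
    (N.map C).map (mapRingHom PadicInt.toZMod) = (N.map PadicInt.toZMod).map C := by
  refine Matrix.ext fun i j => ?_
  simp

variable {κ ι : Type*} [Fintype κ] [Fintype ι] [DecidableEq ι]

open Classical in
theorem pencil_det (M₀ M₁ : Matrix κ ι ℤ_[p])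
    (H : ∀ α β : ι → ZMod p, (M₀.map PadicInt.toZMod) *ᵥ α = 0 →
      (M₁.map PadicInt.toZMod) *ᵥ α = (M₀.map PadicInt.toZMod) *ᵥ β → α = 0) :
    ∃ (V : Matrix ι κ ℤ_[p]) (d : ℕ), d ≤ Fintype.card ι ∧ ∀ E : Matrix κ ι ℤ_[p][X],
      ∃ φ : ℤ_[p][X],
        (V.map C * (M₀.map C + (C (p : ℤ_[p]) * X) • M₁.map C + (C (p : ℤ_[p])) ^ 2 • E)).det =
          C (p : ℤ_[p]) ^ d * φ ∧
        (φ.map PadicInt.toZMod).natDegree = d ∧ φ.map PadicInt.toZMod ≠ 0 := by
  obtain ⟨S, U', V', hU', h1, h2, h3⟩ := pencil_field _ _ H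
  choose lift hlift using toZMod_surjective (p := p)
  let U : Matrix ι ι ℤ_[p] := U'.map lift
  let V : Matrix ι κ ℤ_[p] := V'.map lift
  have hUred : U.map PadicInt.toZMod = U' := by
    ext i j; simp [U, hlift]
  have hVred : V.map PadicInt.toZMod = V' := by
    ext i j; simp [V, hlift]
  have hUdet : IsUnit U.det := by
    apply isUnit_of_toZMod
    have h4 := RingHom.map_det (PadicInt.toZMod (p := p)) U
    rw [RingHom.mapMatrix_apply] at h4
    rw [h4, hUred]
    exact hU'.ne_zero
  have hz : ∀ i, S i → ∀ j, ∃ z, (M₀ * U) j i = (p : ℤ_[p]) * z := by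
    intro i hi j
    rw [← toZMod_eq_zero]
    have h4 := h1 i hi j
    rw [← hUred] at h4
    have h5 : (M₀.map PadicInt.toZMod * U.map PadicInt.toZMod) =
        (M₀ * U).map PadicInt.toZMod := (Matrix.map_mul).symm
    rw [h5] at h4
    exact h4
  choose! z hz using hz
  let Z : Matrix κ ι ℤ_[p] := Matrix.of fun j i => z i j
  refine ⟨V, Fintype.card {a // ¬ ¬ S a}, Fintype.card_subtype_le _, fun E => ?_⟩
  set M : Matrix κ ι ℤ_[p][X] :=
    M₀.map C + (C (p : ℤ_[p]) * X) • M₁.map C + (C (p : ℤ_[p])) ^ 2 • E with hM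
  let D : Matrix ι ι ℤ_[p][X] := Matrix.of fun j i => if S i then
    (V.map C * (Z.map C + (X : ℤ_[p][X]) • (M₁ * U).map C + C (p : ℤ_[p]) • (E * U.map C))) j i
    else (V.map C * (M * U.map C)) j i
  let s : ι → ℤ_[p][X] := fun i => if S i then C (p : ℤ_[p]) else 1
  have hD : V.map C * M * U.map C = D * Matrix.diagonal s := by
    refine Matrix.ext fun j i => ?_
    rw [Matrix.mul_diagonal, Matrix.mul_assoc]
    simp only [D, s, Matrix.of_apply]
    by_cases hi : S i
    · simp only [hi, if_true]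
      rw [Matrix.mul_apply, Matrix.mul_apply, Finset.sum_mul]
      refine Finset.sum_congr rfl fun l _ => ?_
      have h4 : (M * U.map C) l i = C ((M₀ * U) l i) + C (p : ℤ_[p]) * X * C ((M₁ * U) l i) +
          C (p : ℤ_[p]) ^ 2 * (E * U.map C) l i := by
        rw [hM, Matrix.add_mul, Matrix.add_mul, Matrix.smul_mul, Matrix.smul_mul,
          ← Matrix.map_mul, ← Matrix.map_mul]
        rfl
      rw [h4, hz i hi l]
      change C (V j l) * _ = C (V j l) * (C (z i l) + X * C ((M₁ * U) l i) +
        C (p : ℤ_[p]) * (E * U.map C) l i) * C (p : ℤ_[p])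
      rw [C_mul]
      ring
    · simp only [hi, if_false, mul_one]
  have hdetU : (U.map (C : ℤ_[p] →+* ℤ_[p][X])).det = C U.det := by
    have := RingHom.map_det (C : ℤ_[p] →+* ℤ_[p][X]) U
    rw [RingHom.mapMatrix_apply] at this
    exact this.symm
  obtain ⟨w, hw⟩ := hUdet.exists_right_inv
  have hprod : ∏ i, s i = C (p : ℤ_[p]) ^ Fintype.card {a // ¬ ¬ S a} := by
    simp only [s]
    rw [Finset.prod_ite, Finset.prod_const, Finset.prod_const_one, mul_one]
    congr 1
    rw [Fintype.card_subtype]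
    congr 1
    ext i; simp
  have hdet : (V.map C * M).det = C (p : ℤ_[p]) ^ Fintype.card {a // ¬ ¬ S a} * (D.det * C w) := by
    have h4 := congrArg Matrix.det hD
    rw [Matrix.det_mul, hdetU, Matrix.det_mul, Matrix.det_diagonal, hprod] at h4
    calc (V.map C * M).det = (V.map C * M).det * C U.det * C w := by
          rw [mul_assoc, ← C_mul, hw, C_1, mul_one]
      _ = _ := by rw [h4]; ring
  -- the reduction of `D`
  set D' : Matrix ι ι (ZMod p)[X] := D.map (mapRingHom PadicInt.toZMod) with hD'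
  let c : Matrix ι ι (ZMod p) := V' * Z.map PadicInt.toZMod
  have hpz : PadicInt.toZMod (p : ℤ_[p]) = 0 := by
    rw [map_natCast]; exact ZMod.natCast_self p
  have hD1 : ∀ j i, ¬ S i → D' j i = (1 : Matrix ι ι (ZMod p)[X]) j i := by
    intro j i hi
    have h4 : D' j i = mapRingHom PadicInt.toZMod ((V.map C * (M * U.map C)) j i) := by
      simp only [hD', Matrix.map_apply, D, Matrix.of_apply, hi, if_false]
    have h5 : mapRingHom PadicInt.toZMod ((V.map C * (M * U.map C)) j i) =
        (((V.map C * (M * U.map C))).map (mapRingHom PadicInt.toZMod)) j i := rfl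
    have h6 : M.map (mapRingHom PadicInt.toZMod) = (M₀.map PadicInt.toZMod).map C := by
      refine Matrix.ext fun a b => ?_
      simp [hM]
    rw [h4, h5, Matrix.map_mul, Matrix.map_mul, h6, hmapC, hmapC, hUred, hVred,
      ← Matrix.map_mul, ← Matrix.map_mul]
    rw [Matrix.map_apply, h3 i hi j, Matrix.one_apply, Matrix.one_apply]
    split_ifs <;> simp
  have hD2 : ∀ j i, S i → D' j i = C (c j i) + X * (1 : Matrix ι ι (ZMod p)[X]) j i := by
    intro j i hi
    have h4 : D' j i = ((V.map C * (Z.map C + (X : ℤ_[p][X]) • (M₁ * U).map C +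
        C (p : ℤ_[p]) • (E * U.map C))).map (mapRingHom PadicInt.toZMod)) j i := by
      simp only [hD', Matrix.map_apply, D, Matrix.of_apply, hi, if_true]
    have h5 : (Z.map C + (X : ℤ_[p][X]) • (M₁ * U).map C +
        C (p : ℤ_[p]) • (E * U.map C)).map (mapRingHom PadicInt.toZMod) =
        (Z.map PadicInt.toZMod).map C + (X : (ZMod p)[X]) •
          (M₁.map PadicInt.toZMod * U').map C := by
      have h6 : M₁.map PadicInt.toZMod * U' = (M₁ * U).map PadicInt.toZMod := by
        rw [← hUred, ← Matrix.map_mul]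
      rw [h6]
      refine Matrix.ext fun a b => ?_
      simp only [Matrix.map_apply, Matrix.add_apply, Matrix.smul_apply, smul_eq_mul,
        coe_mapRingHom, Polynomial.map_add, Polynomial.map_mul, Polynomial.map_C,
        Polynomial.map_X, hpz, C_0, zero_mul, add_zero]
    rw [h4, Matrix.map_mul, h5, hmapC, hVred, Matrix.mul_add, Matrix.mul_smul,
      ← Matrix.map_mul, ← Matrix.map_mul]
    rw [Matrix.add_apply, Matrix.smul_apply, Matrix.map_apply, Matrix.map_apply, h2 i hi j,
      smul_eq_mul]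
    congr 2
    rw [Matrix.one_apply, Matrix.one_apply]
    split_ifs <;> simp
  have hDdet : D'.det = (Matrix.of fun (j i : {a // ¬ ¬ S a}) => - c j.1 i.1).charpoly := by
    rw [Matrix.twoBlockTriangular_det D' (fun i => ¬ S i)]
    · have h4 : D'.toSquareBlockProp (fun i => ¬ S i) = 1 := by
        refine Matrix.ext fun j i => ?_
        change D' j.1 i.1 = _
        rw [hD1 _ _ i.2, Matrix.one_apply, Matrix.one_apply]
        simp [Subtype.ext_iff]
      rw [h4, Matrix.det_one, one_mul, Matrix.charpoly]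
      congr 1
      refine Matrix.ext fun j i => ?_
      change D' j.1 i.1 = _
      rw [hD2 _ _ (not_not.1 i.2), Matrix.charmatrix, Matrix.sub_apply, Matrix.scalar_apply,
        Matrix.diagonal_apply, RingHom.mapMatrix_apply, Matrix.map_apply, Matrix.of_apply,
        Matrix.one_apply]
      by_cases hji : j = i
      · subst hji; simp; ring
      · have : (j : ι) ≠ i := fun h => hji (Subtype.ext h)
        simp [hji, this]
    · intro i hi j hj
      rw [hD1 i j hj, Matrix.one_apply, if_neg]
      rintro rfl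
      exact hi hj
  have hφ : (D.det * C w).map PadicInt.toZMod = D'.det * C (PadicInt.toZMod w) := by
    rw [Polynomial.map_mul, map_C, hD']
    have := RingHom.map_det (mapRingHom (PadicInt.toZMod (p := p))) D
    rw [RingHom.mapMatrix_apply] at this
    rw [← this]
    rfl
  have hw0 : PadicInt.toZMod w ≠ 0 := by
    intro h
    have h4 := congrArg (PadicInt.toZMod (p := p)) hw
    rw [map_mul, h, mul_zero, map_one] at h4
    exact zero_ne_one h4
  refine ⟨D.det * C w, hdet, ?_, ?_⟩
  · rw [hφ, natDegree_mul_C hw0, hDdet, Matrix.charpoly_natDegree_eq_dim]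
  · rw [hφ, hDdet]
    exact mul_ne_zero (Matrix.charpoly_monic _).ne_zero (C_ne_zero.2 hw0)

end Pool.Agent.Helper31_Leo
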