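import Pool.Agent.Helper31_Leo.Final
import Pool.Agent.Helper31_Leo.FiberCount
import Pool.Agent.Helper65_Dens.ParamPoly

/-!
# Sections of the exceptional sets in the family with all coefficients as parameters
-/

set_option autoImplicit false

open Polynomial NumberField Pool.Agent.Helper85_Leo Pool.Agent.Helper65_Leo
open Pool.Agent.Helper65_Dens (Par gpoly fpoly gpoly_monic gpoly_natDegree gpoly_map fpoly_monic
  fpoly_natDegree gpoly_update_ne gpoly_update_self prod_gpoly_monic prod_gpoly_natDegree)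

namespace Pool.Agent.Helper31_Leo

variable {ι : Type} [Fintype ι] [DecidableEq ι] (m : ι → ℕ)

/-- Leopoldt's conjecture at `p` fails for a field generated by a root of `fpoly m a`. -/
def FailsN (p : ℕ) [Fact p.Prime] (a : Par m → ℤ) : Prop :=
  ∃ (K : Type) (_ : Field K) (_ : NumberField K) (θ : K),
    IntermediateField.adjoin ℚ {θ} = ⊤ ∧ aeval θ (fpoly m a) = 0 ∧
    Module.finrank ℚ K = ∑ i, m i ∧ Units.rank K + 1 ≤ Fintype.card ι ∧ ¬ LeopoldtAt K p

/-- The factors `i` and `l` are not coprime modulo `p`. -/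
def NC (p : ℕ) (i l : ι) (a : Par m → ℤ) : Prop :=
  ¬ IsCoprime ((gpoly m a i).map (Int.castRingHom (ZMod p)))
    ((gpoly m a l).map (Int.castRingHom (ZMod p)))

variable {m}

theorem classes_bound {p : ℕ} [hp : Fact p.Prime] {P Q : ℤ[X]} (hP : P.Monic)
    (hdeg : Q.natDegree < P.natDegree)
    (hcop : IsCoprime P Q) {ι' : Type} [Fintype ι'] (g : ι' → ℤ[X]) (hgQ : ∀ i, g i ∣ Q)
    (hsum : ∑ i, (g i).natDegree < P.natDegree) (hgood : GoodPrime P g p)
    (S : Finset ℤ) (hS : ∀ t ∈ S, Fails P Q (Fintype.card ι') p t) :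
    S.card ≤ Fintype.card ι' * p := by
  have h1 : S.card ≤ Fintype.card ι' * (S.image fun t : ℤ => (t : ZMod p)).card := by
    refine Finset.card_le_mul_card_image S _ fun b hb => ?_
    obtain ⟨a, -, rfl⟩ := Finset.mem_image.1 hb
    refine class_bound hP hdeg hcop g hgQ hsum hgood a _ (fun t ht => ?_) fun t ht => ?_
    · exact hS t (Finset.mem_filter.1 ht).1
    · have h2 := (ZMod.intCast_eq_intCast_iff _ _ _).1 (Finset.mem_filter.1 ht).2
      obtain ⟨v, hv⟩ := h2.symm.dvd
      exact ⟨v, by linear_combination hv⟩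
  refine h1.trans (Nat.mul_le_mul_left _ ?_)
  exact (Finset.card_le_univ _).trans (ZMod.card p).le

/-- Sections in the direction of a constant coefficient, if the other factors are pairwise
coprime modulo `p`. -/
theorem section_bound {p : ℕ} [hp : Fact p.Prime] (hm : ∀ i, 0 < m i) (hpm : 3 * ∑ i, m i ≤ p)
    (i₀ : ι) (a : Par m → ℤ)
    (hPC : ∀ i l, i ≠ i₀ → l ≠ i₀ → i ≠ l → ¬ NC m p i l a) (s : Finset ℤ)
    (hs : ∀ t ∈ s, FailsN m p (Function.update a ⟨i₀, ⟨0, hm i₀⟩⟩ t)) :
    s.card ≤ Fintype.card ι * p := by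
  classical
  let ι' := {l : ι // l ≠ i₀}
  let g : ι' → ℤ[X] := fun l => gpoly m a l
  set Q : ℤ[X] := ∏ l : ι', g l with hQ
  set h₀ : ℤ[X] := gpoly m a i₀ - C (a ⟨i₀, ⟨0, hm i₀⟩⟩) with hh₀
  set P : ℤ[X] := h₀ * Q - 1 with hP
  have hsplit : ∀ b : Par m → ℤ, ∏ i, gpoly m b i = gpoly m b i₀ * ∏ l : ι', gpoly m b l := by
    intro b
    rw [← Finset.mul_prod_erase _ _ (Finset.mem_univ i₀)]
    congr 1
    rw [Finset.prod_subtype (Finset.univ.erase i₀) (p := fun l => l ≠ i₀)
      (fun l => by simp) (fun l => gpoly m b l)]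
  have hf : ∀ t, fpoly m (Function.update a ⟨i₀, ⟨0, hm i₀⟩⟩ t) = P - C (-t) * Q := by
    intro t
    unfold fpoly
    rw [hsplit, gpoly_update_self]
    have h1 : ∏ l : ι', gpoly m (Function.update a ⟨i₀, ⟨0, hm i₀⟩⟩ t) l = Q := by
      refine Finset.prod_congr rfl fun l _ => ?_
      exact gpoly_update_ne a i₀ l l.2 (hm i₀) t
    rw [h1, hP, hh₀, C_sub, C_neg]
    ring
  have hf0 := hf 0
  rw [neg_zero, C_0, zero_mul, sub_zero] at hf0
  have hn : 0 < ∑ i, m i := Finset.sum_pos (fun i _ => hm i) ⟨i₀, Finset.mem_univ _⟩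
  have hPm : P.Monic := by rw [← hf0]; exact fpoly_monic _ hn
  have hPdeg : P.natDegree = ∑ i, m i := by rw [← hf0]; exact fpoly_natDegree _
  have hQdeg : Q.natDegree = ∑ l : ι', m l := by
    rw [hQ, natDegree_prod_of_monic Finset.univ g fun l _ => gpoly_monic a l]
    exact Finset.sum_congr rfl fun l _ => gpoly_natDegree a l
  have hsumm : ∑ l : ι', m l < ∑ i, m i := by
    have h1 : ∑ i ∈ Finset.univ.erase i₀, m i = ∑ l : ι', m l :=
      Finset.sum_subtype (Finset.univ.erase i₀) (p := fun l => l ≠ i₀)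
        (fun l => by simp) (fun l => m l)
    rw [← Finset.add_sum_erase _ _ (Finset.mem_univ i₀), h1]
    have := hm i₀
    omega
  have hcop : IsCoprime P Q := ⟨-1, h₀, by rw [hP]; ring⟩
  have hcard : Fintype.card ι = Fintype.card ι' + 1 := by
    have h1 := Fintype.card_subtype_compl (fun l : ι => l = i₀)
    have h2 : 0 < Fintype.card ι := Fintype.card_pos_iff.2 ⟨i₀⟩
    rw [Fintype.card_subtype_eq] at h1
    change Fintype.card ι' = _ at h1
    omega
  have hgood : GoodPrime P g p := by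
    refine ⟨by rw [hPdeg]; exact hpm, fun l h => ?_, fun i l hil => ?_⟩
    · have h1 : ((gpoly m a l).map (Int.castRingHom (ZMod p))).natDegree = m l := by
        rw [gpoly_map, gpoly_natDegree]
      have h2 : ((gpoly m a l).map (Int.castRingHom (ZMod p))).Monic := (gpoly_monic a l).map _
      have h3 := congrArg (fun q => q.coeff (m l - 1)) h
      simp only [coeff_derivative, coeff_zero] at h3
      have h4 := hm l
      obtain ⟨r, hr⟩ : ∃ r, m l = r + 1 := ⟨m l - 1, by omega⟩
      have h5 : ((gpoly m a l).map (Int.castRingHom (ZMod p))).coeff (m l - 1 + 1) = 1 := by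
        rw [hr, Nat.add_sub_cancel, ← hr]
        have := h2.coeff_natDegree
        rwa [h1] at this
      change ((gpoly m a l).map (Int.castRingHom (ZMod p))).coeff (m l - 1 + 1) * _ = 0 at h3
      rw [h5, one_mul, hr, Nat.add_sub_cancel] at h3
      have h6 : ((m l : ℕ) : ZMod p) = 0 := by rw [hr]; push_cast; exact h3
      rw [ZMod.natCast_eq_zero_iff] at h6
      have h7 := Nat.le_of_dvd (hm l) h6
      have h8 : m l ≤ ∑ i, m i := Finset.single_le_sum (fun _ _ => Nat.zero_le _)
        (Finset.mem_univ (l : ι))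
      omega
    · have := hPC i l i.2 l.2 (fun h => hil (Subtype.ext h))
      unfold NC at this
      exact not_not.1 this
  have h1 := classes_bound (p := p) hPm (by rw [hPdeg, hQdeg]; exact hsumm) hcop g
    (fun l => Finset.dvd_prod_of_mem _ (Finset.mem_univ l)) (by
      rw [hPdeg]
      refine lt_of_le_of_lt (le_of_eq ?_) hsumm
      exact Finset.sum_congr rfl fun l _ => gpoly_natDegree a l) hgood (s.image fun t => -t) (by
      intro t' ht'
      obtain ⟨t, ht, rfl⟩ := Finset.mem_image.1 ht'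
      obtain ⟨K, i1, i2, θ, b1, b2, b3, b4, b5⟩ := hs t ht
      refine ⟨K, i1, i2, θ, ?_, b1, by rw [hPdeg]; exact b3, by omega, b5⟩
      rw [← hf t]
      exact b2)
  rw [Finset.card_image_of_injective _ neg_injective] at h1
  refine h1.trans (Nat.mul_le_mul_right _ ?_)
  omega

/-- The residues modulo `p` of the constant coefficient of a factor which is not coprime to
another one. -/
theorem nc_section {p : ℕ} [hp : Fact p.Prime] (hm : ∀ i, 0 < m i) {i l : ι} (hil : i ≠ l)
    (a : Par m → ℤ) (s : Finset ℤ)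
    (hs : ∀ t ∈ s, NC m p i l (Function.update a ⟨i, ⟨0, hm i⟩⟩ t)) :
    (s.image fun t : ℤ => (t : ZMod p)).card ≤ m l := by
  classical
  let Ω := AlgebraicClosure (ZMod p)
  set G := (gpoly m a l).map (Int.castRingHom (ZMod p)) with hG
  have hGm : G.Monic := (gpoly_monic a l).map _
  have hGd : G.natDegree = m l := by rw [hG, gpoly_map, gpoly_natDegree]
  set H := (gpoly m a i).map (Int.castRingHom (ZMod p)) with hH
  let F : Ω → Ω := fun x => algebraMap (ZMod p) Ω ((a ⟨i, ⟨0, hm i⟩⟩ : ℤ) : ZMod p) - aeval x H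
  let Z : Finset Ω := ((G.map (algebraMap (ZMod p) Ω)).roots.toFinset).image F
  have hZ : Z.card ≤ m l := by
    refine Finset.card_image_le.trans ?_
    refine (Multiset.toFinset_card_le _).trans ?_
    refine (card_roots' _).trans ?_
    rw [natDegree_map, hGd]
  refine le_trans ?_ hZ
  refine Finset.card_le_card_of_injOn (fun t => algebraMap (ZMod p) Ω t) ?_
    (algebraMap (ZMod p) Ω).injective.injOn
  intro r hr
  rw [Finset.mem_coe, Finset.mem_image] at hr
  obtain ⟨t, ht, rfl⟩ := hr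
  have h1 := hs t ht
  unfold NC at h1
  rw [gpoly_update_self, gpoly_update_ne a i l hil.symm (hm i),
    isCoprime_iff_aeval_ne_zero_of_isAlgClosed (ZMod p) Ω] at h1
  push Not at h1
  obtain ⟨x, hx1, hx2⟩ := h1
  rw [Finset.mem_coe, Finset.mem_image]
  refine ⟨x, ?_, ?_⟩
  · rw [Multiset.mem_toFinset, mem_roots (hGm.map _).ne_zero, IsRoot, eval_map_algebraMap]
    exact hx2
  · simp only [F]
    rw [Polynomial.map_add, Polynomial.map_C, map_add, aeval_C] at hx1
    have h2 : (Int.castRingHom (ZMod p)) (t - a ⟨i, ⟨0, hm i⟩⟩) =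
        (t : ZMod p) - ((a ⟨i, ⟨0, hm i⟩⟩ : ℤ) : ZMod p) := by simp
    rw [h2, map_sub] at hx1
    linear_combination -hx1

end Pool.Agent.Helper31_Leo
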