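import Pool.Agent.Helper31_Leo.Section
import Pool.Agent.Helper65_Dens.Bad

/-!
# Density one, uniformly in the prime
-/

set_option autoImplicit false

open Polynomial NumberField Pool.Agent.Helper85_Leo Pool.Agent.Helper65_Leo
open Pool.Agent.Helper65_Dens

namespace Pool.Agent.Helper31_Leo

theorem sum_le_of_sq (s : Finset ℕ) (c : ℝ) (hc : 0 ≤ c) (h1 : ∀ p ∈ s, 1 ≤ p)
    (h : ∀ p ∈ s, (p : ℝ) ^ 2 ≤ c) : ∑ p ∈ s, (p : ℝ) ≤ c := by
  rcases s.eq_empty_or_nonempty with rfl | hs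
  · simpa using hc
  · set x := s.max' hs with hx
    have h2 : s ⊆ Finset.Icc 1 x := fun p hp => Finset.mem_Icc.2 ⟨h1 p hp, s.le_max' p hp⟩
    have h3 : s.card ≤ x := by
      have := Finset.card_le_card h2
      rwa [Nat.card_Icc, Nat.add_sub_cancel] at this
    have h4 : ∑ p ∈ s, (p : ℝ) ≤ s.card • (x : ℝ) :=
      Finset.sum_le_card_nsmul _ _ _ fun p hp => by exact_mod_cast s.le_max' p hp
    refine h4.trans (le_trans ?_ (h x (s.max'_mem hs)))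
    rw [nsmul_eq_mul, sq]
    have h5 : (s.card : ℝ) ≤ x := by exact_mod_cast h3
    exact mul_le_mul_of_nonneg_right h5 (Nat.cast_nonneg _)

theorem sum_inv_sq_le (s : Finset ℕ) (Y : ℕ) (hY : Y ≠ 0) (h : ∀ p ∈ s, Y < p) :
    ∑ p ∈ s, ((p : ℝ) ^ 2)⁻¹ ≤ (Y : ℝ)⁻¹ := by
  rcases s.eq_empty_or_nonempty with rfl | hs
  · simp
  · set x := s.max' hs with hx
    have h1 : s ⊆ Finset.Ioc Y x := fun p hp => Finset.mem_Ioc.2 ⟨h p hp, s.le_max' p hp⟩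
    have h2 : Y ≤ x := (h x (s.max'_mem hs)).le
    calc ∑ p ∈ s, ((p : ℝ) ^ 2)⁻¹ ≤ ∑ p ∈ Finset.Ioc Y x, ((p : ℝ) ^ 2)⁻¹ :=
          Finset.sum_le_sum_of_subset_of_nonneg h1 fun _ _ _ => by positivity
      _ ≤ (Y : ℝ)⁻¹ - (x : ℝ)⁻¹ := sum_Ioc_inv_sq_le_sub hY h2
      _ ≤ (Y : ℝ)⁻¹ := by
          have : (0 : ℝ) ≤ (x : ℝ)⁻¹ := by positivity
          linarith

/-- Integers of an interval with few residues. -/
theorem card_interval_le {p : ℕ} (hp : 0 < p) (lo : ℤ) (N M : ℕ) (s : Finset ℤ)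
    (h1 : ∀ t ∈ s, lo ≤ t ∧ t < lo + N) (h2 : (s.image fun t : ℤ => (t : ZMod p)).card ≤ M) :
    s.card ≤ M * (N / p + 1) := by
  classical
  have h3 : s.card ≤ (N / p + 1) * (s.image fun t : ℤ => (t : ZMod p)).card := by
    refine Finset.card_le_mul_card_image s _ fun b _ => ?_
    have h4 := count_class p hp lo N b
    have h5 : (s.filter fun t : ℤ => (t : ZMod p) = b).card ≤
        ((Finset.Ico lo (lo + N)).filter fun x : ℤ => (x : ZMod p) = b).card := by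
      refine Finset.card_le_card fun t ht => ?_
      rw [Finset.mem_filter] at ht ⊢
      exact ⟨Finset.mem_Ico.2 (h1 t ht.1), ht.2⟩
    refine h5.trans ?_
    set c := ((Finset.Ico lo (lo + N)).filter fun x : ℤ => (x : ZMod p) = b).card
    rcases Nat.eq_zero_or_pos c with h | h
    · rw [h]; exact Nat.zero_le _
    · obtain ⟨d, hd⟩ : ∃ d, c = d + 1 := ⟨c - 1, by omega⟩
      rw [hd] at h4 ⊢
      push_cast at h4
      have h6 : (d : ℝ) ≤ N / p := by linarith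
      rw [le_div_iff₀ (by exact_mod_cast hp)] at h6
      have h7 : d * p ≤ N := by exact_mod_cast h6
      exact Nat.succ_le_succ ((Nat.le_div_iff_mul_le hp).2 h7)
  calc s.card ≤ (N / p + 1) * (s.image fun t : ℤ => (t : ZMod p)).card := h3
    _ ≤ (N / p + 1) * M := Nat.mul_le_mul_left _ h2
    _ = _ := mul_comm _ _

variable {ι : Type} [Fintype ι] [DecidableEq ι] {m : ι → ℕ}

/-- The index of the constant coefficient. -/
def q0 (hm : ∀ i, 0 < m i) (i : ι) : Par m := ⟨i, ⟨0, hm i⟩⟩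

/-- Failing vectors for which the other factors are pairwise coprime. -/
def SA (m : ι → ℕ) (p : ℕ) (i₀ : ι) : Set (Par m → ℤ) :=
  {a | (∀ i l, i ≠ i₀ → l ≠ i₀ → i ≠ l → ¬ NC m p i l a) ∧ ∃ _ : Fact p.Prime, FailsN m p a}

/-- Vectors with two different coincidences. -/
def SB (m : ι → ℕ) (p : ℕ) (z : (ι × ι) × (ι × ι)) : Set (Par m → ℤ) :=
  {a | (z.1.1 ≠ z.1.2 ∧ z.2.1 ≠ z.2.2 ∧ z.1.1 ≠ z.2.1 ∧ z.1.1 ≠ z.2.2) ∧
    NC m p z.1.1 z.1.2 a ∧ NC m p z.2.1 z.2.2 a}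

theorem nc_update_iff (hm : ∀ i, 0 < m i) (p : ℕ) {i₀ i l : ι} (hi : i ≠ i₀) (hl : l ≠ i₀)
    (a : Par m → ℤ) (t : ℤ) : NC m p i l (Function.update a (q0 hm i₀) t) ↔ NC m p i l a := by
  unfold NC q0
  rw [gpoly_update_ne a i₀ i hi (hm i₀), gpoly_update_ne a i₀ l hl (hm i₀)]

theorem cover [Nonempty ι] (p : ℕ) [hp : Fact p.Prime] :
    {a : Par m → ℤ | FailsN m p a} ⊆ (⋃ i₀ ∈ (Finset.univ : Finset ι), SA m p i₀) ∪
      ⋃ z ∈ (Finset.univ : Finset ((ι × ι) × (ι × ι))), SB m p z := by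
  intro a ha
  by_cases h : ∃ i₀, ∀ i l, i ≠ i₀ → l ≠ i₀ → i ≠ l → ¬ NC m p i l a
  · obtain ⟨i₀, hi₀⟩ := h
    left
    rw [Set.mem_iUnion₂]
    exact ⟨i₀, Finset.mem_univ _, hi₀, hp, ha⟩
  · right
    push Not at h
    obtain ⟨i₀⟩ := (inferInstance : Nonempty ι)
    obtain ⟨i, l, -, -, h1, h2⟩ := h i₀
    obtain ⟨i', l', h3, h4, h5, h6⟩ := h i
    rw [Set.mem_iUnion₂]
    exact ⟨((i, l), (i', l')), Finset.mem_univ _, ⟨h1, h5, h3.symm, h4.symm⟩, h2, h6⟩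

theorem cnt_SA (hm : ∀ i, 0 < m i) {p : ℕ} (hpm : 3 * ∑ i, m i ≤ p) (lo : Par m → ℤ)
    (N : Par m → ℕ) (i₀ : ι) :
    N (q0 hm i₀) * cnt lo N (SA m p i₀) ≤ Fintype.card ι * p * ∏ q, N q := by
  rw [← cnt_univ lo N]
  refine fiber_count lo N (q0 hm i₀) (fun _ _ _ => Set.mem_univ _) (Set.subset_univ _) _
    fun a s hs => ?_
  rcases s.eq_empty_or_nonempty with rfl | ⟨t₀, ht₀⟩
  · simp
  · obtain ⟨h1, hp, -⟩ := (hs t₀ ht₀).2
    refine section_bound hm hpm i₀ a (fun i l hi hl hil hnc => ?_) s fun t ht => ?_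
    · exact h1 i l hi hl hil ((nc_update_iff hm p hi hl a t₀).2 hnc)
    · obtain ⟨-, hp', h2⟩ := (hs t ht).2
      exact h2

theorem cnt_SB (hm : ∀ i, 0 < m i) {p : ℕ} [hp : Fact p.Prime] (lo : Par m → ℤ)
    (N : Par m → ℕ) (hN : ∀ q, p ≤ N q) (z : (ι × ι) × (ι × ι)) :
    (cnt lo N (SB m p z) : ℝ) ≤ (2 * (∑ i, m i : ℕ)) ^ 2 * ((p : ℝ) ^ 2)⁻¹ * ∏ q, (N q : ℝ) := by
  obtain ⟨⟨i, l⟩, ⟨i', l'⟩⟩ := z
  by_cases hz : i ≠ l ∧ i' ≠ l' ∧ i ≠ i' ∧ i ≠ l'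
  swap
  · have : ({a | (∀ q, lo q ≤ a q ∧ a q < lo q + N q) ∧ a ∈ SB m p ((i, l), (i', l'))} :
        Set (Par m → ℤ)) = ∅ := by
      ext a
      simp only [Set.mem_setOf_eq, Set.mem_empty_iff_false, iff_false]
      rintro ⟨-, h, -⟩
      exact hz h
    rw [cnt, this, Set.ncard_empty, Nat.cast_zero]
    positivity
  obtain ⟨h1, h2, h3, h4⟩ := hz
  have hp0 : 0 < p := hp.out.pos
  have e1 : N (q0 hm i) * cnt lo N (SB m p ((i, l), (i', l'))) ≤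
      (m l * (N (q0 hm i) / p + 1)) * cnt lo N {a | NC m p i' l' a} := by
    refine fiber_count lo N (q0 hm i) (A := {a | NC m p i' l' a}) (fun a ha t => ?_)
      (fun a ha => ha.2.2) _ fun a s hs => ?_
    · exact (nc_update_iff hm p h3.symm h4.symm a t).2 ha
    · refine card_interval_le hp0 (lo (q0 hm i)) _ _ s (fun t ht => (hs t ht).1) ?_
      exact nc_section hm h1 a s fun t ht => (hs t ht).2.2.1
  have e2 : N (q0 hm i') * cnt lo N {a | NC m p i' l' a} ≤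
      (m l' * (N (q0 hm i') / p + 1)) * ∏ q, N q := by
    rw [← cnt_univ lo N]
    refine fiber_count lo N (q0 hm i') (fun _ _ _ => Set.mem_univ _) (Set.subset_univ _) _
      fun a s hs => ?_
    refine card_interval_le hp0 (lo (q0 hm i')) _ _ s (fun t ht => (hs t ht).1) ?_
    exact nc_section hm h2 a s fun t ht => (hs t ht).2
  have hD : ∀ i, (m i : ℝ) ≤ (∑ i, m i : ℕ) := fun i => by
    exact_mod_cast Finset.single_le_sum (fun _ _ => Nat.zero_le _) (Finset.mem_univ i)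
  set D : ℝ := ((∑ i, m i : ℕ) : ℝ) with hDdef
  have hD0 : 0 ≤ D := Nat.cast_nonneg _
  have hpR : (0 : ℝ) < p := by exact_mod_cast hp0
  have key : ∀ (i l : ι), ((m l * (N (q0 hm i) / p + 1) : ℕ) : ℝ) ≤
      2 * D * (p : ℝ)⁻¹ * N (q0 hm i) := by
    intro i l
    have h5 : ((N (q0 hm i) / p : ℕ) : ℝ) ≤ N (q0 hm i) / p := Nat.cast_div_le
    have h6 : (1 : ℝ) ≤ N (q0 hm i) / p := by
      rw [le_div_iff₀ hpR, one_mul]; exact_mod_cast hN _
    push_cast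
    calc (m l : ℝ) * (((N (q0 hm i) / p : ℕ) : ℝ) + 1) ≤ D * (N (q0 hm i) / p + N (q0 hm i) / p) :=
          mul_le_mul (hD l) (add_le_add h5 h6) (by positivity) hD0
      _ = _ := by rw [div_eq_mul_inv]; ring
  have hNpos : ∀ q, (0 : ℝ) < N q := fun q => by exact_mod_cast hp0.trans_le (hN q)
  have e1' : (N (q0 hm i) : ℝ) * cnt lo N (SB m p ((i, l), (i', l'))) ≤
      (2 * D * (p : ℝ)⁻¹ * N (q0 hm i)) * cnt lo N {a | NC m p i' l' a} := by
    have h5 : ((N (q0 hm i) * cnt lo N (SB m p ((i, l), (i', l'))) : ℕ) : ℝ) ≤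
      (((m l * (N (q0 hm i) / p + 1)) * cnt lo N {a | NC m p i' l' a} : ℕ) : ℝ) := by
      exact_mod_cast e1
    rw [Nat.cast_mul, Nat.cast_mul (m l * _)] at h5
    exact h5.trans (mul_le_mul_of_nonneg_right (key i l) (Nat.cast_nonneg _))
  have e2' : (N (q0 hm i') : ℝ) * cnt lo N {a | NC m p i' l' a} ≤
      (2 * D * (p : ℝ)⁻¹ * N (q0 hm i')) * ∏ q, (N q : ℝ) := by
    have h5 : ((N (q0 hm i') * cnt lo N {a | NC m p i' l' a} : ℕ) : ℝ) ≤
      (((m l' * (N (q0 hm i') / p + 1)) * ∏ q, N q : ℕ) : ℝ) := by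
      exact_mod_cast e2
    rw [Nat.cast_mul, Nat.cast_mul (m l' * _), Nat.cast_prod] at h5
    exact h5.trans (mul_le_mul_of_nonneg_right (key i' l')
      (Finset.prod_nonneg fun _ _ => Nat.cast_nonneg _))
  have f1 : (cnt lo N (SB m p ((i, l), (i', l'))) : ℝ) ≤
      2 * D * (p : ℝ)⁻¹ * cnt lo N {a | NC m p i' l' a} := by
    have : (N (q0 hm i) : ℝ) * cnt lo N (SB m p ((i, l), (i', l'))) ≤
        N (q0 hm i) * (2 * D * (p : ℝ)⁻¹ * cnt lo N {a | NC m p i' l' a}) := by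
      refine e1'.trans (le_of_eq ?_); ring
    exact le_of_mul_le_mul_left this (hNpos _)
  have f2 : (cnt lo N {a | NC m p i' l' a} : ℝ) ≤ 2 * D * (p : ℝ)⁻¹ * ∏ q, (N q : ℝ) := by
    have : (N (q0 hm i') : ℝ) * cnt lo N {a | NC m p i' l' a} ≤
        N (q0 hm i') * (2 * D * (p : ℝ)⁻¹ * ∏ q, (N q : ℝ)) := by
      refine e2'.trans (le_of_eq ?_); ring
    exact le_of_mul_le_mul_left this (hNpos _)
  calc (cnt lo N (SB m p ((i, l), (i', l'))) : ℝ)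
      ≤ 2 * D * (p : ℝ)⁻¹ * cnt lo N {a | NC m p i' l' a} := f1
    _ ≤ 2 * D * (p : ℝ)⁻¹ * (2 * D * (p : ℝ)⁻¹ * ∏ q, (N q : ℝ)) :=
        mul_le_mul_of_nonneg_left f2 (by positivity)
    _ = _ := by rw [← inv_pow]; ring

end Pool.Agent.Helper31_Leo
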