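import Pool.Agent.Helper31_Leo.Unif
import Pool.Agent.Helper65_Dens.Final

/-!
# Density one for all small primes simultaneously
-/

set_option autoImplicit false

open Polynomial NumberField Pool.Agent.Helper85_Leo Pool.Agent.Helper65_Leo
open Pool.Agent.Helper65_Dens

namespace Pool.Agent.Helper31_Leo

variable {ι : Type} [Fintype ι] [DecidableEq ι] {m : ι → ℕ}

theorem uniform_density (hm : ∀ i, 0 < m i) [Nonempty ι] (ε : ℝ) (hε : 0 < ε) :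
    ∃ (δ : ℝ) (N₀ : ℕ), 0 < δ ∧ ∀ (lo : Par m → ℤ) (N : Par m → ℕ), (∀ q, N₀ ≤ N q) →
      (cnt lo N {a | ∃ (p : ℕ) (_ : Fact p.Prime), (∀ q, (p : ℝ) ^ 2 ≤ δ * N q) ∧
        FailsN m p a} : ℝ) ≤ ε * ∏ q, (N q : ℝ) := by
  classical
  obtain ⟨i₁⟩ := (inferInstance : Nonempty ι)
  set r : ℝ := (Fintype.card ι : ℝ) with hr
  have hr0 : 0 < r := by rw [hr]; exact_mod_cast Fintype.card_pos
  set D : ℝ := ((∑ i, m i : ℕ) : ℝ) with hD
  obtain ⟨Y₀, hY₀⟩ := exists_nat_gt (12 * D ^ 2 * r ^ 4 / ε)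
  set Y := max (3 * ∑ i, m i) (max Y₀ 1) with hY
  have hY1 : 1 ≤ Y := (le_max_right _ _).trans (le_max_right _ _)
  have hY2 : 3 * ∑ i, m i ≤ Y := le_max_left _ _
  have hY3 : 12 * D ^ 2 * r ^ 4 / ε < Y := by
    refine hY₀.trans_le ?_
    exact_mod_cast (le_max_left Y₀ 1).trans (le_max_right _ _)
  have hYpos : (0 : ℝ) < Y := by exact_mod_cast hY1
  have hY4 : 4 * D ^ 2 * r ^ 4 * (Y : ℝ)⁻¹ ≤ ε / 3 := by
    rw [div_lt_iff₀ hε] at hY3
    rw [← div_eq_mul_inv, div_le_iff₀ hYpos]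
    linarith
  -- the small primes
  let B : Fin (Y + 1) → Set (Par m → ℤ) := fun k =>
    {a | ∃ _ : Fact (k : ℕ).Prime, FailsN m (k : ℕ) a}
  have hB : BNull (⋃ k, B k) := by
    refine bnull_iUnion B fun k => ?_
    by_cases hk : (k : ℕ).Prime
    · have : Fact (k : ℕ).Prime := ⟨hk⟩
      refine (bnull_not_leopoldt (k : ℕ) hm).mono ?_
      rintro a ⟨hk', ha⟩
      exact ha
    · refine bnull_empty.mono ?_
      rintro a ⟨hk', -⟩
      exact absurd hk'.out hk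
  obtain ⟨N₁, hN₁⟩ := hB (ε / 3) (by positivity)
  have hδ0 : 0 < min 1 (ε / (3 * r ^ 2)) := lt_min one_pos (by positivity)
  refine ⟨min 1 (ε / (3 * r ^ 2)), max N₁ 1, hδ0, fun lo N hN => ?_⟩
  set δ := min 1 (ε / (3 * r ^ 2)) with hδ
  have hNpos : ∀ q, (0 : ℝ) < N q := fun q => by
    exact_mod_cast (le_max_right N₁ 1).trans (hN q)
  set PS : Finset ℕ := (Finset.Ioc Y (N (q0 hm i₁))).filter
    (fun p : ℕ => p.Prime ∧ ∀ q, (p : ℝ) ^ 2 ≤ δ * N q) with hPS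
  have hPSmem : ∀ p ∈ PS, Y < p ∧ p.Prime ∧ ∀ q, (p : ℝ) ^ 2 ≤ δ * N q := by
    intro p hp
    rw [hPS, Finset.mem_filter, Finset.mem_Ioc] at hp
    exact ⟨hp.1.1, hp.2⟩
  have hple : ∀ p : ℕ, 1 ≤ p → ∀ q, (p : ℝ) ^ 2 ≤ δ * N q → p ≤ N q := by
    intro p hp q h
    have h1 : (1 : ℝ) ≤ p := by exact_mod_cast hp
    have h2 : δ * N q ≤ 1 * N q := mul_le_mul_of_nonneg_right (min_le_left _ _) (hNpos q).le
    have h3 : (p : ℝ) ≤ N q := by nlinarith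
    exact_mod_cast h3
  have hcover : {a : Par m → ℤ | ∃ (p : ℕ) (_ : Fact p.Prime), (∀ q, (p : ℝ) ^ 2 ≤ δ * N q) ∧
      FailsN m p a} ⊆ (⋃ k, B k) ∪ ⋃ p ∈ PS, ((⋃ i₀ ∈ (Finset.univ : Finset ι), SA m p i₀) ∪
        ⋃ z ∈ (Finset.univ : Finset ((ι × ι) × (ι × ι))), SB m p z) := by
    rintro a ⟨p, hp, h1, h2⟩
    by_cases hpY : p ≤ Y
    · left
      rw [Set.mem_iUnion]
      exact ⟨⟨p, by omega⟩, hp, h2⟩
    · right
      rw [Set.mem_iUnion₂]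
      refine ⟨p, ?_, cover p h2⟩
      rw [hPS, Finset.mem_filter, Finset.mem_Ioc]
      exact ⟨⟨by omega, hple p hp.out.one_lt.le _ (h1 _)⟩, hp.out, h1⟩
  set Pi : ℝ := ∏ q, (N q : ℝ) with hPi
  have hPi0 : 0 ≤ Pi := Finset.prod_nonneg fun _ _ => Nat.cast_nonneg _
  -- the three parts
  have hsmall : (cnt lo N (⋃ k, B k) : ℝ) ≤ ε / 3 * Pi :=
    hN₁ lo N fun q => (le_max_left N₁ 1).trans (hN q)
  have hSA : ∀ i₀ : ι, ∑ p ∈ PS, (cnt lo N (SA m p i₀) : ℝ) ≤ r * δ * Pi := by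
    intro i₀
    have h1 : ∀ p ∈ PS, (cnt lo N (SA m p i₀) : ℝ) ≤ r * Pi / N (q0 hm i₀) * p := by
      intro p hp
      obtain ⟨b1, b2, b3⟩ := hPSmem p hp
      have h2 := cnt_SA hm (p := p) (by omega) lo N i₀
      have h3 : ((N (q0 hm i₀) * cnt lo N (SA m p i₀) : ℕ) : ℝ) ≤
          ((Fintype.card ι * p * ∏ q, N q : ℕ) : ℝ) := by exact_mod_cast h2
      push_cast at h3
      rw [div_mul_eq_mul_div, le_div_iff₀ (hNpos _)]
      calc (cnt lo N (SA m p i₀) : ℝ) * N (q0 hm i₀)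
          = N (q0 hm i₀) * cnt lo N (SA m p i₀) := mul_comm _ _
        _ ≤ _ := h3
        _ = _ := by rw [hPi, hr]; ring
    refine (Finset.sum_le_sum h1).trans ?_
    rw [← Finset.mul_sum]
    have h4 := sum_le_of_sq PS (δ * N (q0 hm i₀)) (mul_nonneg hδ0.le (hNpos _).le)
      (fun p hp => by have := hPSmem p hp; omega) (fun p hp => (hPSmem p hp).2.2 _)
    have h5 : 0 ≤ r * Pi / N (q0 hm i₀) := div_nonneg (mul_nonneg hr0.le hPi0) (hNpos _).le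
    refine (mul_le_mul_of_nonneg_left h4 h5).trans (le_of_eq ?_)
    have := (hNpos (q0 hm i₀)).ne'
    field_simp
  have hSB : ∀ z : (ι × ι) × (ι × ι), ∑ p ∈ PS, (cnt lo N (SB m p z) : ℝ) ≤
      4 * D ^ 2 * (Y : ℝ)⁻¹ * Pi := by
    intro z
    have h1 : ∀ p ∈ PS, (cnt lo N (SB m p z) : ℝ) ≤ 4 * D ^ 2 * Pi * ((p : ℝ) ^ 2)⁻¹ := by
      intro p hp
      obtain ⟨b1, b2, b3⟩ := hPSmem p hp
      have : Fact p.Prime := ⟨b2⟩
      refine (cnt_SB hm lo N (fun q => hple p b2.one_lt.le q (b3 q)) z).trans (le_of_eq ?_)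
      rw [hPi, hD]; ring
    refine (Finset.sum_le_sum h1).trans ?_
    rw [← Finset.mul_sum]
    have h2 := sum_inv_sq_le PS Y (by omega) fun p hp => (hPSmem p hp).1
    refine (mul_le_mul_of_nonneg_left h2 (by positivity)).trans (le_of_eq ?_)
    ring
  -- assembly
  have hcount : (cnt lo N {a : Par m → ℤ | ∃ (p : ℕ) (_ : Fact p.Prime),
      (∀ q, (p : ℝ) ^ 2 ≤ δ * N q) ∧ FailsN m p a} : ℝ) ≤
      cnt lo N (⋃ k, B k) + ∑ p ∈ PS, (∑ i₀ : ι, (cnt lo N (SA m p i₀) : ℝ) +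
        ∑ z : (ι × ι) × (ι × ι), (cnt lo N (SB m p z) : ℝ)) := by
    have h1 := (cnt_mono lo N hcover).trans (cnt_union lo N _ _)
    have h2 := cnt_biUnion lo N PS fun p => ((⋃ i₀ ∈ (Finset.univ : Finset ι), SA m p i₀) ∪
        ⋃ z ∈ (Finset.univ : Finset ((ι × ι) × (ι × ι))), SB m p z)
    have h3 : ∀ p ∈ PS, cnt lo N ((⋃ i₀ ∈ (Finset.univ : Finset ι), SA m p i₀) ∪
        ⋃ z ∈ (Finset.univ : Finset ((ι × ι) × (ι × ι))), SB m p z) ≤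
        ∑ i₀ : ι, cnt lo N (SA m p i₀) + ∑ z : (ι × ι) × (ι × ι), cnt lo N (SB m p z) := by
      intro p _
      refine (cnt_union lo N _ _).trans (Nat.add_le_add ?_ ?_)
      · exact cnt_biUnion lo N _ _
      · exact cnt_biUnion lo N _ _
    have h4 := h1.trans (Nat.add_le_add_left (h2.trans (Finset.sum_le_sum h3)) _)
    exact_mod_cast h4
  refine hcount.trans ?_
  rw [Finset.sum_add_distrib, Finset.sum_comm, Finset.sum_comm (s := PS)]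
  have h5 : ∑ i₀ : ι, ∑ p ∈ PS, (cnt lo N (SA m p i₀) : ℝ) ≤ ε / 3 * Pi := by
    refine (Finset.sum_le_sum fun i₀ _ => hSA i₀).trans ?_
    rw [Finset.sum_const, Finset.card_univ, nsmul_eq_mul, ← hr]
    have h6 : r * (r * δ) ≤ ε / 3 := by
      have h7 : δ ≤ ε / (3 * r ^ 2) := min_le_right _ _
      calc r * (r * δ) ≤ r * (r * (ε / (3 * r ^ 2))) := by gcongr
        _ = ε / 3 := by field_simp
    calc r * (r * δ * Pi) = r * (r * δ) * Pi := by ring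
      _ ≤ ε / 3 * Pi := mul_le_mul_of_nonneg_right h6 hPi0
  have h6 : ∑ z : (ι × ι) × (ι × ι), ∑ p ∈ PS, (cnt lo N (SB m p z) : ℝ) ≤ ε / 3 * Pi := by
    refine (Finset.sum_le_sum fun z _ => hSB z).trans ?_
    rw [Finset.sum_const, Finset.card_univ, nsmul_eq_mul, Fintype.card_prod, Fintype.card_prod]
    push_cast
    rw [← hr]
    calc r * r * (r * r) * (4 * D ^ 2 * (Y : ℝ)⁻¹ * Pi) = (4 * D ^ 2 * r ^ 4 * (Y : ℝ)⁻¹) * Pi := by
          ring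
      _ ≤ ε / 3 * Pi := mul_le_mul_of_nonneg_right hY4 hPi0
  calc (cnt lo N (⋃ k, B k) : ℝ) + (∑ i₀ : ι, ∑ p ∈ PS, (cnt lo N (SA m p i₀) : ℝ) +
        ∑ z : (ι × ι) × (ι × ι), ∑ p ∈ PS, (cnt lo N (SB m p z) : ℝ))
      ≤ ε / 3 * Pi + (ε / 3 * Pi + ε / 3 * Pi) := add_le_add hsmall (add_le_add h5 h6)
    _ = ε * Pi := by ring

end Pool.Agent.Helper31_Leo
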