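import Pool.Agent.Helper31_Leo.UnifMain

/-!
# Density one for all small primes simultaneously, every signature
-/

set_option autoImplicit false

open Polynomial NumberField Pool.Agent.Helper85_Leo Pool.Agent.Helper65_Leo
open Pool.Agent.Helper65_Dens

namespace Pool.Agent.Helper31_Leo

theorem cnt_reindex {κ κ' : Type} [Fintype κ] [DecidableEq κ] [Fintype κ'] [DecidableEq κ']
    (e : κ' ≃ κ) (lo : κ → ℤ) (N : κ → ℕ) (B : Set (κ' → ℤ)) :
    cnt lo N {a : κ → ℤ | (fun q => a (e q)) ∈ B} ≤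
      cnt (fun q => lo (e q)) (fun q => N (e q)) B := by
  have hinj : Function.Injective fun (a : κ → ℤ) (q : κ') => a (e q) := by
    intro a b h
    funext q
    obtain ⟨q', rfl⟩ := e.surjective q
    exact congrFun h q'
  rw [cnt, ← Set.ncard_image_of_injective _ hinj]
  refine Set.ncard_le_ncard ?_ (box_inter_finite _ _ B)
  rintro _ ⟨a, ⟨ha1, ha2⟩, rfl⟩
  exact ⟨fun q => ha1 (e q), ha2⟩

variable {r₁ r₂ : ℕ}

/-- **Density one for all small primes simultaneously.** -/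
theorem density_one_uniform (hpos : 0 < r₁ + r₂) (ε : ℝ) (hε : 0 < ε) :
    ∃ (δ : ℝ) (N₀ : ℕ), 0 < δ ∧ ∀ (lo : Ix r₁ r₂ → ℤ) (N : Ix r₁ r₂ → ℕ), (∀ q, N₀ ≤ N q) →
      (({a : Ix r₁ r₂ → ℤ | (∀ q, lo q ≤ a q ∧ a q < lo q + N q) ∧
        (∀ j, a (.inr (.inl j)) ^ 2 < 4 * a (.inr (.inr j))) ∧
        ¬ (Irreducible ((prodPoly a - 1).map (Int.castRingHom ℚ)) ∧
          ∀ (K : Type) [Field K] [NumberField K] (θ : K),
            IntermediateField.adjoin ℚ {θ} = ⊤ → aeval θ (prodPoly a - 1) = 0 →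
            InfinitePlace.nrRealPlaces K = r₁ ∧ InfinitePlace.nrComplexPlaces K = r₂ ∧
            ∀ (p : ℕ) [Fact p.Prime], (∀ q, (p : ℝ) ^ 2 ≤ δ * N q) →
              LeopoldtAt K p)} : Set (Ix r₁ r₂ → ℤ)).ncard : ℝ) ≤ ε * ∏ q, (N q : ℝ) := by
  classical
  have hne : Nonempty (Fin r₁ ⊕ Fin r₂) := by
    rcases Nat.eq_zero_or_pos r₁ with h | h
    · exact ⟨.inr ⟨0, by omega⟩⟩
    · exact ⟨.inl ⟨0, h⟩⟩
  have hm : ∀ i, 0 < degs r₁ r₂ i := by
    rintro (i | j)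
    · exact one_pos
    · exact two_pos
  let e := Equiv.ofBijective _ (ixMap_bijective (r₁ := r₁) (r₂ := r₂))
  obtain ⟨δ, N₁, hδ, h1⟩ := uniform_density hm (ε / 2) (by positivity)
  obtain ⟨N₂, h2⟩ := (bnull_not_sep (r₁ := r₁) (r₂ := r₂)) (ε / 2) (by positivity)
  refine ⟨δ, max N₁ N₂, hδ, fun lo N hN => ?_⟩
  have h3 := h1 (fun q => lo (e q)) (fun q => N (e q)) fun q => (le_max_left _ _).trans (hN _)
  have h4 := h2 lo N fun q => (le_max_right _ _).trans (hN q)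
  have hprod : ∏ q, (N (e q) : ℝ) = ∏ q, (N q : ℝ) := Equiv.prod_comp e fun q => (N q : ℝ)
  rw [hprod] at h3
  set Bad : Set (Par (degs r₁ r₂) → ℤ) := {a | ∃ (p : ℕ) (_ : Fact p.Prime),
    (∀ q, (p : ℝ) ^ 2 ≤ δ * N (e q)) ∧ FailsN (degs r₁ r₂) p a} with hBad
  set NS : Set (Ix r₁ r₂ → ℤ) := {a | (∀ j, a (.inr (.inl j)) ^ 2 < 4 * a (.inr (.inr j))) ∧
    ¬ Sep a} with hNS
  have hsub : cnt lo N {a : Ix r₁ r₂ → ℤ | (∀ j, a (.inr (.inl j)) ^ 2 < 4 * a (.inr (.inr j))) ∧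
        ¬ (Irreducible ((prodPoly a - 1).map (Int.castRingHom ℚ)) ∧
          ∀ (K : Type) [Field K] [NumberField K] (θ : K),
            IntermediateField.adjoin ℚ {θ} = ⊤ → aeval θ (prodPoly a - 1) = 0 →
            InfinitePlace.nrRealPlaces K = r₁ ∧ InfinitePlace.nrComplexPlaces K = r₂ ∧
            ∀ (p : ℕ) [Fact p.Prime], (∀ q, (p : ℝ) ^ 2 ≤ δ * N q) → LeopoldtAt K p)} ≤
      cnt lo N NS + cnt lo N {a : Ix r₁ r₂ → ℤ | (fun q => a (e q)) ∈ Bad} := by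
    refine (cnt_mono lo N ?_).trans (cnt_union lo N _ _)
    rintro a ⟨hdisc, hbad⟩
    by_contra hcon
    rw [Set.mem_union, not_or] at hcon
    obtain ⟨c1, c2⟩ := hcon
    have hsep : Sep a := by
      by_contra h
      exact c1 ⟨hdisc, h⟩
    have hpos' : 0 < r₁ + 2 * r₂ := by omega
    apply hbad
    refine ⟨hsep.irreducible hpos', fun K _ _ θ hgen hroot => ?_⟩
    obtain ⟨s1, s2, s3, s4⟩ := hsep.signature hpos' K θ hgen hroot
    refine ⟨s2, s3, fun p hp hpN => ?_⟩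
    by_contra hL
    apply c2
    refine ⟨p, hp, fun q => hpN (e q), K, inferInstance, inferInstance, θ, hgen, ?_, ?_, ?_, hL⟩
    · have h5 : fpoly (degs r₁ r₂) (fun q => a (e q)) = prodPoly a - 1 := by
        unfold fpoly
        rw [← prod_gpoly_ixMap]
        rfl
      rw [h5]
      exact hroot
    · rw [s1, Fintype.sum_sum_type]
      simp
      ring
    · rw [s4]
      simp
  have h5 := cnt_reindex e lo N Bad
  have h6 : (cnt lo N NS : ℝ) ≤ ε / 2 * ∏ q, (N q : ℝ) := h4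
  have h7 : ((cnt lo N NS + cnt lo N {a : Ix r₁ r₂ → ℤ | (fun q => a (e q)) ∈ Bad} : ℕ) : ℝ) ≤
      ε * ∏ q, (N q : ℝ) := by
    push_cast
    have h8 : (cnt lo N {a : Ix r₁ r₂ → ℤ | (fun q => a (e q)) ∈ Bad} : ℝ) ≤
        ε / 2 * ∏ q, (N q : ℝ) := by
      refine le_trans ?_ h3
      exact_mod_cast h5
    calc _ ≤ ε / 2 * ∏ q, (N q : ℝ) + ε / 2 * ∏ q, (N q : ℝ) := add_le_add h6 h8
      _ = _ := by ring
  refine le_trans ?_ h7
  exact_mod_cast hsub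

end Pool.Agent.Helper31_Leo
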